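import Pool.Agent.H16.EL.Sym

/-!
# Exact Lagrangians with a topologically transitive family of symmetries
-/

open scoped Manifold ContDiff Topology InnerProductSpace
open Bundle Set Filter

set_option linter.unusedSectionVars false

noncomputable section

namespace Pool.Agent.H16.EL

variable {n : ℕ} {N : Type*} [TopologicalSpace N] [ChartedSpace (E n) N] [IsManifold (𝓡 n) ∞ N]
variable {L : Type*} [TopologicalSpace L] [ChartedSpace (E n) L] [IsManifold (𝓡 n) ∞ L]

theorem ct_t2 [T2Space N] : T2Space (CT n N) := by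
  rw [t2Space_iff_disjoint_nhds]
  intro z z' hz
  by_cases h : z.proj = z'.proj
  · set e := (triv z.proj : Trivialization (E n →L[ℝ] ℝ) (TotalSpace.proj : CT n N → N)) with he
    have h1 : z ∈ e.source := mem_triv_source (mem_chart_source _ _)
    have h2 : z' ∈ e.source := mem_triv_source (by rw [← h]; exact mem_chart_source _ _)
    have h3 : e z ≠ e z' := fun h4 => hz (e.injOn h1 h2 h4)
    have t1 : Tendsto e (𝓝 z) (𝓝 (e z)) := e.toOpenPartialHomeomorph.continuousAt h1
    have t2 : Tendsto e (𝓝 z') (𝓝 (e z')) := e.toOpenPartialHomeomorph.continuousAt h2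
    exact t1.disjoint (disjoint_nhds_nhds.2 h3) t2
  · have hc : Continuous (TotalSpace.proj : CT n N → N) :=
      FiberBundle.continuous_proj (E n →L[ℝ] ℝ) _
    exact (hc.tendsto z).disjoint (disjoint_nhds_nhds.2 h) (hc.tendsto z')

/-- the derivative vanishes at a local maximum -/
theorem mfderiv_localMax {f : L → ℝ} {y : L} (hf : MDifferentiableAt (𝓡 n) 𝓘(ℝ, ℝ) f y)
    (hmax : IsLocalMax f y) (v : TangentSpace (𝓡 n) y) : mfderiv (𝓡 n) 𝓘(ℝ, ℝ) f y v = 0 := by
  set w₀ := extChartAt (𝓡 n) y y with hw₀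
  have hw : w₀ ∈ (extChartAt (𝓡 n) y).target := mem_extChartAt_target y
  have e0 : (extChartAt (𝓡 n) y).symm w₀ = y := extChartAt_to_inv (I := 𝓡 n) y
  have h1 := (symm_contMDiffAt hw).mdifferentiableAt (by simp)
  have h2 : MDifferentiableAt (𝓡 n) 𝓘(ℝ, ℝ) f ((extChartAt (𝓡 n) y).symm w₀) := by
    rw [e0]; exact hf
  have hm : IsLocalMax (fun w => f ((extChartAt (𝓡 n) y).symm w)) w₀ := by
    have := (symm_tendsto (n := n) y).eventually hmax
    filter_upwards [this] with w hw
    rw [e0]; exact hw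
  have h3 := hm.fderiv_eq_zero
  rw [← mfderiv_eq_fderiv] at h3
  have e1 : mfderiv 𝓘(ℝ, E n) 𝓘(ℝ, ℝ) (fun w => f ((extChartAt (𝓡 n) y).symm w)) w₀ =
      (mfderiv (𝓡 n) 𝓘(ℝ, ℝ) f ((extChartAt (𝓡 n) y).symm w₀)).comp
        (mfderiv 𝓘(ℝ, E n) (𝓡 n) (extChartAt (𝓡 n) y).symm w₀) := mfderiv_comp w₀ h2 h1
  rw [e1] at h3
  have key : ∀ (y' : L), y' = (extChartAt (𝓡 n) y).symm w₀ → ∀ v' : TangentSpace (𝓡 n) y',
      mfderiv (𝓡 n) 𝓘(ℝ, ℝ) f y' v' = 0 := by
    rintro _ rfl v'
    obtain ⟨u, rfl⟩ := (symm_bij hw).2 v'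
    exact congrArg (fun A => A u) h3
  exact key y e0.symm v

/-- local injectivity at nondegenerate points -/
theorem reg_injOn {j : L → CT n N} (hj : ExactLagrangian j) {y : L} (hy : Reg j y) :
    ∃ U ∈ 𝓝 y, InjOn (fun y => (j y).proj) U := by
  have hw : extChartAt (𝓡 n) y y ∈ Dom j y (j y).proj :=
    mem_Dom (mem_chart_source _ _) (mem_chart_source _ _)
  have h1 : HasStrictFDerivAt (Bc j y (j y).proj)
      (fderiv ℝ (Bc j y (j y).proj) (extChartAt (𝓡 n) y y)) (extChartAt (𝓡 n) y y) :=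
    (Bc_contDiffAt hj.smooth hw).hasStrictFDerivAt (by simp)
  have hinj : Function.Injective (fderiv ℝ (Bc j y (j y).proj) (extChartAt (𝓡 n) y y)) := by
    rw [injective_iff_map_eq_zero]
    refine (reg_iff hj.smooth hw).2 ?_
    rw [extChartAt_to_inv]; exact hy
  obtain ⟨S, S', -, hS⟩ := exists_left_inv h1 hinj
  have h5 : ContinuousAt (extChartAt (𝓡 n) y) y := continuousAt_extChartAt y
  refine ⟨_, inter_mem (h5.preimage_mem_nhds hS) (extChartAt_source_mem_nhds (I := 𝓡 n) y), ?_⟩
  rintro z ⟨z1, z2⟩ z' ⟨z1', z2'⟩ hzz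
  have e1 : Bc j y (j y).proj (extChartAt (𝓡 n) y z) =
      Bc j y (j y).proj (extChartAt (𝓡 n) y z') := by
    unfold Bc
    rw [(extChartAt (𝓡 n) y).left_inv z2, (extChartAt (𝓡 n) y).left_inv z2']
    exact congrArg _ hzz
  have e2 : extChartAt (𝓡 n) y z = extChartAt (𝓡 n) y z' := by
    have a1 : S (Bc j y (j y).proj (extChartAt (𝓡 n) y z)) = extChartAt (𝓡 n) y z := z1
    have a2 : S (Bc j y (j y).proj (extChartAt (𝓡 n) y z')) = extChartAt (𝓡 n) y z' := z1'
    rw [← a1, ← a2, e1]
  exact (extChartAt (𝓡 n) y).injOn z2 z2' e2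

/-- if the zero section is contained in the image then it is the image -/
theorem eq_zeroSec [CompactSpace L] [ConnectedSpace L] [T2Space N] [Nonempty N] {j : L → CT n N}
    (hj : ExactLagrangian j) (h : ∀ x : N, (⟨x, 0⟩ : CT n N) ∈ range j) :
    range j = zeroSec n N := by
  have := ct_t2 (n := n) (N := N)
  have hemb := hj.smooth.continuous.isClosedEmbedding hj.inj
  choose s hs using h
  have hzs : ContMDiff (𝓡 n) (ICT n) ∞ (fun x : N => (⟨x, 0⟩ : CT n N)) :=
    contMDiff_zeroSection ℝ (fun x : N => TangentSpace (𝓡 n) x →L[ℝ] Trivial N ℝ x)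
  have hsc : Continuous s := by
    rw [hemb.isEmbedding.continuous_iff]
    have : j ∘ s = fun x : N => (⟨x, 0⟩ : CT n N) := funext hs
    rw [this]; exact hzs.continuous
  have hbs : ∀ x, (j (s x)).proj = x := fun x => by rw [hs]
  have hreg : ∀ x, Reg j (s x) := by
    intro x
    have h1 : MDifferentiableAt (𝓡 n) (𝓡 n) s x :=
      mdiff_of_comp hj hsc.continuousAt hzs.contMDiffAt hs
    have h2 : MDifferentiableAt (𝓡 n) (𝓡 n) (fun y => (j y).proj) (s x) :=
      (contMDiff_b hj.smooth).contMDiffAt.mdifferentiableAt (by simp)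
    have h3 : mfderiv (𝓡 n) (𝓡 n) (fun x => (j (s x)).proj) x =
        (mfderiv (𝓡 n) (𝓡 n) (fun y => (j y).proj) (s x)).comp (mfderiv (𝓡 n) (𝓡 n) s x) :=
      mfderiv_comp x h2 h1
    have h4 : HasMFDerivAt (𝓡 n) (𝓡 n) (fun x => (j (s x)).proj) x
        (ContinuousLinearMap.id ℝ (TangentSpace (𝓡 n) x)) := by
      have : (fun x => (j (s x)).proj) = (id : N → N) := funext hbs
      rw [this]
      exact hasMFDerivAt_id x
    have h5 : ∀ v : E n, ∃ u : E n,
        (mfderiv (𝓡 n) (𝓡 n) (fun y => (j y).proj) (s x) : E n →L[ℝ] E n) u = v := by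
      intro v
      have h6 := h4.mfderiv
      rw [h3] at h6
      exact ⟨mfderiv (𝓡 n) (𝓡 n) s x v, congrArg (fun A => A v) h6⟩
    let A : E n →L[ℝ] E n := mfderiv (𝓡 n) (𝓡 n) (fun y => (j y).proj) (s x)
    have h7 : Function.Injective (A : E n →ₗ[ℝ] E n) := LinearMap.injective_iff_surjective.2 h5
    exact h7
  have hclosed : IsClosed (range s) := by
    have : CompactSpace N := by
      have hsurj : Function.Surjective (fun y => (j y).proj) := fun x => ⟨s x, hbs x⟩
      exact ⟨by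
        rw [← hsurj.range_eq]
        exact isCompact_range (contMDiff_b hj.smooth).continuous⟩
    have : T2Space L := hemb.isEmbedding.t2Space
    exact (isCompact_range hsc).isClosed
  have hopen : IsOpen (range s) := by
    rw [isOpen_iff_mem_nhds]
    rintro _ ⟨x, rfl⟩
    obtain ⟨U, hU, hUi⟩ := reg_injOn hj (hreg x)
    have hb : Continuous (fun y => (j y).proj) := (contMDiff_b hj.smooth).continuous
    have h1 : ContinuousAt (fun y => s (j y).proj) (s x) := (hsc.comp hb).continuousAt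
    have h2 : (fun y => s (j y).proj) ⁻¹' U ∈ 𝓝 (s x) := by
      refine h1.preimage_mem_nhds ?_
      rw [hbs]; exact hU
    filter_upwards [h2, hU] with y z1 z2
    exact ⟨(j y).proj, hUi z1 z2 (hbs _)⟩
  have huniv : range s = univ := by
    obtain ⟨x⟩ := (inferInstance : Nonempty N)
    exact IsClopen.eq_univ ⟨hclosed, hopen⟩ ⟨s x, mem_range_self x⟩
  ext z
  constructor
  · rintro ⟨y, rfl⟩
    have : y ∈ range s := huniv ▸ mem_univ y
    obtain ⟨x, rfl⟩ := this
    rw [hs]
    rfl
  · intro hz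
    have h1 : (z : CT n N) = ⟨z.proj, 0⟩ := by
      have h2 : z.2 = 0 := hz
      rw [← h2]
    exact ⟨s z.proj, by rw [hs, ← h1]⟩

/-- the main theorem -/
theorem transitive_lifts [CompactSpace L] [ConnectedSpace L] [T2Space N] [ConnectedSpace N]
    {j : L → CT n N} (hj : ExactLagrangian j)
    (S : Set ((N ≃ₜ N) × Diffeomorph (ICT n) (ICT n) (CT n N) (CT n N) ∞))
    (hlift : ∀ s ∈ S, IsLift s.1 s.2) (hinv : ∀ s ∈ S, s.2 '' range j = range j)
    (htrans : ∀ A : Set N, IsClosed A → (∀ s ∈ S, s.1 '' A = A) → (interior A).Nonempty →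
      A = univ) : range j = zeroSec n N := by
  have := ct_t2 (n := n) (N := N)
  have hemb := hj.smooth.continuous.isClosedEmbedding hj.inj
  have : T2Space L := hemb.isEmbedding.t2Space
  obtain ⟨f, hf, hfj⟩ := hj.exact
  have hb : Continuous (fun y => (j y).proj) := (contMDiff_b hj.smooth).continuous
  have hfc : Continuous f := hf.continuous
  -- the symmetries of `L`
  have hρ : ∀ s ∈ S, ∃ ρ : L → L, (∀ y, j (ρ y) = s.2 (j y)) ∧ (∀ y, f (ρ y) = f y) ∧
      Function.Surjective ρ := by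
    intro s hs
    have h1 : ∀ y, ∃ y', j y' = s.2 (j y) := by
      intro y
      have : s.2 (j y) ∈ range j := by
        rw [← hinv s hs]; exact mem_image_of_mem _ (mem_range_self y)
      exact this
    choose ρ hρ using h1
    have hc : Continuous ρ := by
      rw [hemb.isEmbedding.continuous_iff]
      have : j ∘ ρ = fun y => s.2 (j y) := funext hρ
      rw [this]
      exact s.2.contMDiff_toFun.continuous.comp hj.smooth.continuous
    refine ⟨ρ, hρ, fun y => primitive_invariant hj hf hfj (hlift s hs) hc hρ y, fun y => ?_⟩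
    have : j y ∈ s.2 '' range j := by rw [hinv s hs]; exact mem_range_self y
    obtain ⟨_, ⟨y', rfl⟩, hy'⟩ := this
    exact ⟨y', hj.inj (by rw [hρ, hy'])⟩
  -- the invariant closed sets
  set A : ℝ → Set N := fun c => (fun y => (j y).proj) '' {y | c ≤ f y} with hA
  have hAc : ∀ c, IsClosed (A c) := fun c =>
    ((isClosed_le continuous_const hfc).isCompact.image hb).isClosed
  have hAinv : ∀ c, ∀ s ∈ S, s.1 '' A c = A c := by
    intro c s hs
    obtain ⟨ρ, h1, h2, h3⟩ := hρ s hs
    have h4 : ∀ y, (j (ρ y)).proj = s.1 (j y).proj := fun y => by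
      rw [h1, (hlift s hs).cover]
    ext x
    constructor
    · rintro ⟨_, ⟨y, hy, rfl⟩, rfl⟩
      exact ⟨ρ y, by rw [mem_ofPred_eq, h2]; exact hy, h4 y⟩
    · rintro ⟨y, hy, rfl⟩
      obtain ⟨y', rfl⟩ := h3 y
      refine ⟨(j y').proj, ⟨y', ?_, rfl⟩, (h4 y').symm⟩
      rw [mem_ofPred_eq, h2] at hy
      exact hy
  have hkey : ∀ c, (∃ y, Reg j y ∧ c < f y) → A c = univ := by
    rintro c ⟨y, hy, hcy⟩
    refine htrans _ (hAc c) (hAinv c) ⟨(j y).proj, ?_⟩
    rw [mem_interior_iff_mem_nhds]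
    have h1 : {y | c ≤ f y} ∈ 𝓝 y := by
      have := hfc.continuousAt.eventually (lt_mem_nhds hcy)
      filter_upwards [this] with z hz
      exact le_of_lt hz
    exact reg_image_nhds hj hy h1
  obtain ⟨yr, hyr⟩ := exists_reg hj
  set C : Set ℝ := {c | A c = univ} with hC
  have hCne : (f yr - 1) ∈ C := hkey _ ⟨yr, hyr, by linarith⟩
  obtain ⟨ymax, -, hmax⟩ := isCompact_univ.exists_isMaxOn (univ_nonempty (α := L)) hfc.continuousOn
  have hCb : BddAbove C := by
    refine ⟨f ymax, fun c hc => ?_⟩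
    obtain ⟨x⟩ := (inferInstance : Nonempty N)
    have : x ∈ A c := by
      have h1 : A c = univ := hc
      rw [h1]; exact mem_univ x
    obtain ⟨y, hy, -⟩ := this
    exact le_trans hy (hmax (mem_univ y))
  set cs := sSup C with hcs
  -- over every point there is a point of height at least `cs`
  have htop : ∀ x : N, ∃ y, (j y).proj = x ∧ cs ≤ f y := by
    intro x
    have hfib : IsCompact ((fun y => (j y).proj) ⁻¹' {x}) :=
      (isClosed_singleton.preimage hb).isCompact
    have hne : ((fun y => (j y).proj) ⁻¹' {x}).Nonempty := by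
      have : x ∈ A (f yr - 1) := by
        have h1 : A (f yr - 1) = univ := hCne
        rw [h1]; exact mem_univ x
      obtain ⟨y, -, hy⟩ := this
      exact ⟨y, hy⟩
    obtain ⟨y, hy, hym⟩ := hfib.exists_isMaxOn hne hfc.continuousOn
    refine ⟨y, hy, csSup_le ⟨_, hCne⟩ fun c hc => ?_⟩
    have : x ∈ A c := by
      have h1 : A c = univ := hc
      rw [h1]; exact mem_univ x
    obtain ⟨y', hy', hy'x⟩ := this
    exact le_trans hy' (hym hy'x)
  have hregle : ∀ y, Reg j y → f y ≤ cs := by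
    intro y hy
    by_contra hcon
    rw [not_le] at hcon
    obtain ⟨c, hc1, hc2⟩ := exists_between hcon
    have : c ∈ C := hkey c ⟨y, hy, hc2⟩
    exact absurd (le_csSup hCb this) (not_le.2 hc1)
  -- over regular values the zero covector belongs to the image
  have hzero : ∀ x, x ∉ (fun y => (j y).proj) '' {y | ¬ Reg j y} →
      (⟨x, 0⟩ : CT n N) ∈ range j := by
    intro x hx
    obtain ⟨y, hyx, hy⟩ := htop x
    have hreg : Reg j y := by
      by_contra hn
      exact hx ⟨y, hn, hyx⟩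
    have hmaxy : IsLocalMax f y := by
      filter_upwards [(isOpen_reg hj).mem_nhds hreg] with z hz
      exact (hregle z hz).trans hy
    have hd0 : ∀ v : TangentSpace (𝓡 n) y, mfderiv (𝓡 n) 𝓘(ℝ, ℝ) f y v = 0 :=
      mfderiv_localMax (hf.contMDiffAt.mdifferentiableAt (by simp)) hmaxy
    have hp : (j y).2 = 0 := by
      let A : E n →L[ℝ] E n := mfderiv (𝓡 n) (𝓡 n) (fun y => (j y).proj) y
      have hs : Function.Surjective (A : E n →ₗ[ℝ] E n) :=
        LinearMap.injective_iff_surjective.1 hreg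
      have hv : ∀ v : TangentSpace (𝓡 n) (j y).proj, (j y).2 v = 0 := by
        intro v
        obtain ⟨u, hu⟩ := hs v
        have h1 := exact_b hj.smooth y u
        have h2 := hfj y u
        have h3 := hd0 u
        rw [← hu]
        exact h1.symm.trans (h2.symm.trans h3)
      exact ContinuousLinearMap.ext hv
    refine ⟨y, ?_⟩
    have h2 : j y = ⟨(j y).proj, 0⟩ := by rw [← hp]
    rw [h2, ← hyx]
  have hall : ∀ x : N, (⟨x, 0⟩ : CT n N) ∈ range j := by
    have hzs : ContMDiff (𝓡 n) (ICT n) ∞ (fun x : N => (⟨x, 0⟩ : CT n N)) :=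
      contMDiff_zeroSection ℝ (fun x : N => TangentSpace (𝓡 n) x →L[ℝ] Trivial N ℝ x)
    have hcl : IsClosed ((fun x : N => (⟨x, 0⟩ : CT n N)) ⁻¹' range j) :=
      hemb.isClosed_range.preimage hzs.continuous
    have hint := caustic_interior hj
    have hdense : Dense ((fun y => (j y).proj) '' {y | ¬ Reg j y})ᶜ :=
      interior_eq_empty_iff_dense_compl.1 hint
    have hsub : ((fun y => (j y).proj) '' {y | ¬ Reg j y})ᶜ ⊆
        (fun x : N => (⟨x, 0⟩ : CT n N)) ⁻¹' range j := fun x hx => hzero x hx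
    intro x
    have h1 := hcl.closure_subset_iff.2 hsub
    exact h1 (hdense x)
  exact eq_zeroSec hj hall

end Pool.Agent.H16.EL
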