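import Pool.Agent.H16.EL.Pub
import Pool.Agent.H16.EL.Trans

/-!
# From the public definitions to the internal ones
-/

open scoped Manifold ContDiff Topology
open Bundle Set

set_option linter.unusedSectionVars false

noncomputable section

namespace Pool.Agent.H16.EL

section
variable {n : ℕ} (M : Type*) [TopologicalSpace M]

/-- the charts, internal form -/
abbrev chI [h : ChartedSpace (Rn n) M] : ChartedSpace (E n) M := h

theorem manI [h : ChartedSpace (Rn n) M] [h2 : IsManifold (IRn n) ∞ M] :
    @IsManifold ℝ _ (E n) _ _ (E n) _ (𝓡 n) ∞ M _ (chI M) := h2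

end

variable {n : ℕ} {N : Type*} [TopologicalSpace N] [ChartedSpace (Rn n) N] [IsManifold (IRn n) ∞ N]
variable {L : Type*} [TopologicalSpace L] [ChartedSpace (Rn n) L] [IsManifold (IRn n) ∞ L]

theorem transitive_pub [T2Space N] [ConnectedSpace N] [CompactSpace L] [ConnectedSpace L]
    (j : L → TStar n N) (hj : ExactLag j)
    (S : Set ((N ≃ₜ N) × Diffeomorph (IRT n) (IRT n) (TStar n N) (TStar n N) ∞))
    (hlift : ∀ s ∈ S, LiftOf s.1 s.2)
    (hinv : ∀ s ∈ S, s.2 '' range j = range j)
    (htrans : ∀ A : Set N, IsClosed A → (∀ s ∈ S, s.1 '' A = A) → (interior A).Nonempty →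
      A = univ) :
    range j = zeroSection n N := by
  let _ : ChartedSpace (E n) N := chI N
  let _ : ChartedSpace (E n) L := chI L
  have hN : IsManifold (𝓡 n) ∞ N := manI N
  have hL : IsManifold (𝓡 n) ∞ L := manI L
  let j' : L → CT n N := j
  have hsm : ContMDiff (𝓡 n) (ICT n) ∞ j' := hj.smooth
  have him : ∀ y, Function.Injective (mfderiv (𝓡 n) (ICT n) j' y) := by
    intro y v w hvw
    let A : E n →L[ℝ] (E n × (E n →L[ℝ] ℝ)) := mfderiv (𝓡 n) (ICT n) j' y
    let v' : E n := v
    let w' : E n := w
    have h1 : A v' = A w' := hvw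
    have h2 : A (v' - w') = 0 := by rw [map_sub, h1, sub_self]
    have h3 : (v' - w' : E n) = 0 := hj.immersion y (v' - w' : E n) h2
    exact sub_eq_zero.1 h3
  have hj' : ExactLagrangian (n := n) (N := N) (L := L) j' := ⟨hsm, hj.inj, him, hj.exact⟩
  let S' : Set ((N ≃ₜ N) × Diffeomorph (ICT n) (ICT n) (CT n N) (CT n N) ∞) := S
  have hl' : ∀ s ∈ S', IsLift s.1 s.2 := by
    intro s hs
    have h1 := hlift s hs
    refine ⟨?_, ?_⟩
    · exact h1.cover
    · exact h1.pres
  have h : range j' = zeroSec n N := transitive_lifts hj' S' hl' hinv htrans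
  have h2 : zeroSec n N = zeroSection n N := by
    ext z
    constructor
    · intro hz v
      have hz' : TotalSpace.snd (show CT n N from z) = 0 := hz
      show (TotalSpace.snd (show CT n N from z)) v = 0
      rw [hz']; rfl
    · intro hz
      show TotalSpace.snd (show CT n N from z) = 0
      exact ContinuousLinearMap.ext hz
  rw [← h2]
  exact h

end Pool.Agent.H16.EL
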