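import Pool.Agent.H16.EL.Lin

/-!
# The local lemma: a maximum of a fibrewise convex function is a limit of nondegenerate points
-/

open scoped Topology InnerProductSpace
open Set Filter

namespace Pool.Agent.H16.EL

variable {V : Type*} [NormedAddCommGroup V] [InnerProductSpace ℝ V] [FiniteDimensional ℝ V]

/-- one variable second order necessary condition -/
theorem second_order {g g' : ℝ → ℝ} {g2 : ℝ} (h1 : ∀ᶠ t in 𝓝 (0 : ℝ), HasDerivAt g (g' t) t)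
    (h2 : HasDerivAt g' g2 0) (hmax : IsLocalMax g 0) : g' 0 = 0 ∧ g2 ≤ 0 := by
  have hg0 : HasDerivAt g (g' 0) 0 := h1.self_of_nhds
  have e0 : g' 0 = 0 := hmax.hasDerivAt_eq_zero hg0
  refine ⟨e0, ?_⟩
  by_contra hcon
  rw [not_le] at hcon
  have hd : deriv g =ᶠ[𝓝 0] g' := by
    filter_upwards [h1] with t ht
    exact ht.deriv
  have hdd : deriv (deriv g) 0 = g2 := by
    rw [hd.deriv_eq, h2.deriv]
  have hmin : IsLocalMin g 0 := by
    refine isLocalMin_of_deriv_deriv_pos (by rw [hdd]; exact hcon) ?_ hg0.continuousAt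
    rw [hg0.deriv, e0]
  have hconst : g =ᶠ[𝓝 0] fun _ => g 0 := by
    filter_upwards [hmax, hmin] with t ha hb
    exact le_antisymm ha hb
  have hconst2 : deriv g =ᶠ[𝓝 0] fun _ => (0 : ℝ) := by
    have := hconst.deriv
    refine this.trans (Eventually.of_forall fun t => ?_)
    simp
  have : deriv (deriv g) 0 = 0 := by
    rw [hconst2.deriv_eq]; simp
  rw [hdd] at this
  exact absurd this (ne_of_gt hcon)

theorem open_point {B Q : V → V} {w₀ : V} (hB : ContDiffAt ℝ 2 B w₀) (hQ : ContDiffAt ℝ 2 Q w₀)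
    (hS : ∀ᶠ w in 𝓝 w₀, ∀ u v, ⟪fderiv ℝ Q w u, fderiv ℝ B w v⟫_ℝ =
      ⟪fderiv ℝ Q w v, fderiv ℝ B w u⟫_ℝ)
    (himm : ∀ v, fderiv ℝ B w₀ v = 0 → fderiv ℝ Q w₀ v = 0 → v = 0)
    (r : ℝ) (u₁ : V) (hc : 0 < r ^ 2 - ‖B w₀ - u₁‖ ^ 2)
    (hmax : IsLocalMax (fun w => (r ^ 2 - ‖B w - u₁‖ ^ 2) * (1 + ‖Q w‖ ^ 2)) w₀) :
    ∃ᶠ w in 𝓝 w₀, ∀ v, fderiv ℝ B w v = 0 → v = 0 := by
  set c₀ : ℝ := r ^ 2 - ‖B w₀ - u₁‖ ^ 2 with hc₀
  set A : V →L[ℝ] V := fderiv ℝ B w₀ with hA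
  set C : V →L[ℝ] V := fderiv ℝ Q w₀ with hC
  have hB1 : ∀ᶠ w in 𝓝 w₀, DifferentiableAt ℝ B w :=
    (hB.eventually (by simp)).mono fun w hw => hw.differentiableAt (by norm_num)
  have hQ1 : ∀ᶠ w in 𝓝 w₀, DifferentiableAt ℝ Q w :=
    (hQ.eventually (by simp)).mono fun w hw => hw.differentiableAt (by norm_num)
  have hB2 : HasFDerivAt (fderiv ℝ B) (fderiv ℝ (fderiv ℝ B) w₀) w₀ :=
    ((hB.fderiv_right (m := 1) (by norm_num)).differentiableAt (by norm_num)).hasFDerivAt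
  have hQ2 : HasFDerivAt (fderiv ℝ Q) (fderiv ℝ (fderiv ℝ Q) w₀) w₀ :=
    ((hQ.fderiv_right (m := 1) (by norm_num)).differentiableAt (by norm_num)).hasFDerivAt
  set B2 := fderiv ℝ (fderiv ℝ B) w₀ with hB2d
  set Q2 := fderiv ℝ (fderiv ℝ Q) w₀ with hQ2d
  have hsym0 : ∀ u v, ⟪C u, A v⟫_ℝ = ⟪C v, A u⟫_ℝ := hS.self_of_nhds
  have hB2sym : ∀ u v, B2 u v = B2 v u := by
    intro u v
    have h : IsSymmSndFDerivAt ℝ B w₀ := hB.isSymmSndFDerivAt (by simp)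
    exact h u v
  -- differentiated symmetry
  have hS' : ∀ z u v, ⟪Q2 z u, A v⟫_ℝ + ⟪C u, B2 z v⟫_ℝ = ⟪Q2 z v, A u⟫_ℝ + ⟪C v, B2 z u⟫_ℝ := by
    intro z u v
    have hl : ∀ a b : V, HasFDerivAt (fun w => ⟪fderiv ℝ Q w a, fderiv ℝ B w b⟫_ℝ)
        ((innerSL ℝ (C a)).comp ((ContinuousLinearMap.apply ℝ V b).comp B2) +
          (innerSL ℝ (A b)).comp ((ContinuousLinearMap.apply ℝ V a).comp Q2)) w₀ := by
      intro a b
      have h1 : HasFDerivAt (fun w => fderiv ℝ Q w a)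
          ((ContinuousLinearMap.apply ℝ V a).comp Q2) w₀ :=
        (ContinuousLinearMap.apply ℝ V a).hasFDerivAt.comp w₀ hQ2
      have h2 : HasFDerivAt (fun w => fderiv ℝ B w b)
          ((ContinuousLinearMap.apply ℝ V b).comp B2) w₀ :=
        (ContinuousLinearMap.apply ℝ V b).hasFDerivAt.comp w₀ hB2
      have h3 := h1.inner ℝ h2
      refine h3.congr_fderiv ?_
      ext y
      simp [fderivInnerCLM_apply, real_inner_comm, hA, hC]
    have hd := (hl u v).sub (hl v u)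
    have hz : (fun w => ⟪fderiv ℝ Q w u, fderiv ℝ B w v⟫_ℝ - ⟪fderiv ℝ Q w v, fderiv ℝ B w u⟫_ℝ)
        =ᶠ[𝓝 w₀] fun _ => (0 : ℝ) := by
      filter_upwards [hS] with w hw
      rw [hw u v, sub_self]
    have hd0 : HasFDerivAt (fun w => ⟪fderiv ℝ Q w u, fderiv ℝ B w v⟫_ℝ -
        ⟪fderiv ℝ Q w v, fderiv ℝ B w u⟫_ℝ) (0 : V →L[ℝ] ℝ) w₀ :=
      (hasFDerivAt_const (0 : ℝ) w₀).congr_of_eventuallyEq hz
    have he := congrArg (fun F : V →L[ℝ] ℝ => F z) (hd.unique hd0)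
    simp only [sub_apply, add_apply, ContinuousLinearMap.comp_apply, innerSL_apply_apply,
      ContinuousLinearMap.apply_apply, zero_apply] at he
    rw [real_inner_comm (Q2 z u) (A v), real_inner_comm (Q2 z v) (A u)] at he
    linarith
  -- restriction to lines
  have hline : ∀ k : V, ContinuousAt (fun t : ℝ => w₀ + t • k) 0 := fun k => by fun_prop
  have hlim : ∀ k : V, Tendsto (fun t : ℝ => w₀ + t • k) (𝓝 0) (𝓝 w₀) := by
    intro k
    have := (hline k).tendsto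
    simpa using this
  have hlder : ∀ (k : V) (t : ℝ), HasDerivAt (fun t : ℝ => w₀ + t • k) k t := by
    intro k t
    have := ((hasDerivAt_id t).smul_const k).const_add w₀
    simpa using this
  have key : ∀ k : V, (⟪c₀ • Q w₀, C k⟫_ℝ = ⟪(1 + ‖Q w₀‖ ^ 2) • (B w₀ - u₁), A k⟫_ℝ) ∧
      (A k = 0 → c₀ * ‖C k‖ ^ 2 + ⟪c₀ • Q w₀, Q2 k k⟫_ℝ -
        ⟪(1 + ‖Q w₀‖ ^ 2) • (B w₀ - u₁), B2 k k⟫_ℝ ≤ 0) := by
    intro k
    set b : ℝ → V := fun t => B (w₀ + t • k) with hb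
    set q : ℝ → V := fun t => Q (w₀ + t • k) with hq
    set b' : ℝ → V := fun t => fderiv ℝ B (w₀ + t • k) k with hb'
    set q' : ℝ → V := fun t => fderiv ℝ Q (w₀ + t • k) k with hq'
    have dB : ∀ᶠ t in 𝓝 (0 : ℝ), HasDerivAt b (b' t) t := by
      filter_upwards [(hlim k).eventually hB1] with t ht
      exact ht.hasFDerivAt.comp_hasDerivAt t (hlder k t)
    have dQ : ∀ᶠ t in 𝓝 (0 : ℝ), HasDerivAt q (q' t) t := by
      filter_upwards [(hlim k).eventually hQ1] with t ht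
      exact ht.hasFDerivAt.comp_hasDerivAt t (hlder k t)
    have z0 : w₀ + (0 : ℝ) • k = w₀ := by simp
    have dB' : HasDerivAt b' (B2 k k) 0 := by
      have h0 : HasFDerivAt (fderiv ℝ B) B2 (w₀ + (0 : ℝ) • k) := by rw [z0]; exact hB2
      have h1 : HasDerivAt (fun t : ℝ => fderiv ℝ B (w₀ + t • k)) (B2 k) 0 :=
        h0.comp_hasDerivAt (0 : ℝ) (hlder k 0)
      exact ((ContinuousLinearMap.apply ℝ V k).hasFDerivAt.comp_hasDerivAt (0 : ℝ) h1)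
    have dQ' : HasDerivAt q' (Q2 k k) 0 := by
      have h0 : HasFDerivAt (fderiv ℝ Q) Q2 (w₀ + (0 : ℝ) • k) := by rw [z0]; exact hQ2
      have h1 : HasDerivAt (fun t : ℝ => fderiv ℝ Q (w₀ + t • k)) (Q2 k) 0 :=
        h0.comp_hasDerivAt (0 : ℝ) (hlder k 0)
      exact ((ContinuousLinearMap.apply ℝ V k).hasFDerivAt.comp_hasDerivAt (0 : ℝ) h1)
    have vb : b 0 = B w₀ := by simp [hb]
    have vq : q 0 = Q w₀ := by simp [hq]
    have vb' : b' 0 = A k := by simp [hb', hA]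
    have vq' : q' 0 = C k := by simp [hq', hC]
    set g : ℝ → ℝ := fun t => (r ^ 2 - ‖b t - u₁‖ ^ 2) * (1 + ‖q t‖ ^ 2) with hg
    set g' : ℝ → ℝ := fun t => (- (2 * ⟪b t - u₁, b' t⟫_ℝ)) * (1 + ‖q t‖ ^ 2) +
      (r ^ 2 - ‖b t - u₁‖ ^ 2) * (2 * ⟪q t, q' t⟫_ℝ) with hg'
    have n1 : ∀ t, HasDerivAt b (b' t) t →
        HasDerivAt (fun t => r ^ 2 - ‖b t - u₁‖ ^ 2) (- (2 * ⟪b t - u₁, b' t⟫_ℝ)) t := by
      intro t ht
      have := ((ht.sub_const u₁).norm_sq).const_sub (r ^ 2)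
      exact this
    have n2 : ∀ t, HasDerivAt q (q' t) t →
        HasDerivAt (fun t => 1 + ‖q t‖ ^ 2) (2 * ⟪q t, q' t⟫_ℝ) t := by
      intro t ht
      exact (ht.norm_sq).const_add 1
    have dg : ∀ᶠ t in 𝓝 (0 : ℝ), HasDerivAt g (g' t) t := by
      filter_upwards [dB, dQ] with t h1 h2
      exact (n1 t h1).mul (n2 t h2)
    have hb0 := dB.self_of_nhds
    have hq0 := dQ.self_of_nhds
    have i1 : HasDerivAt (fun t => ⟪b t - u₁, b' t⟫_ℝ)
        (⟪b 0 - u₁, B2 k k⟫_ℝ + ⟪b' 0, b' 0⟫_ℝ) 0 := (hb0.sub_const u₁).inner ℝ dB'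
    have i2 : HasDerivAt (fun t => ⟪q t, q' t⟫_ℝ)
        (⟪q 0, Q2 k k⟫_ℝ + ⟪q' 0, q' 0⟫_ℝ) 0 := hq0.inner ℝ dQ'
    have dg' := (((i1.const_mul 2).neg).mul (n2 0 hq0)).add ((n1 0 hb0).mul (i2.const_mul 2))
    have hmax0 : IsLocalMax g 0 := by
      have h1 := (hlim k).eventually hmax
      have h2 : ∀ᶠ t in 𝓝 (0 : ℝ), g t ≤ g 0 := by
        filter_upwards [h1] with t ht
        have : g 0 = (r ^ 2 - ‖B w₀ - u₁‖ ^ 2) * (1 + ‖Q w₀‖ ^ 2) := by
          simp only [hg, vb, vq]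
        rw [this]
        exact ht
      exact h2
    obtain ⟨e1, e2⟩ := second_order dg dg' hmax0
    simp only [hg', vb, vq, vb', vq'] at e1
    constructor
    · rw [inner_smul_left, inner_smul_left]
      simp only [conj_trivial]
      rw [← hc₀] at e1
      linarith
    · intro hk
      have zz : (-fun y => 2 * ⟪b y - u₁, b' y⟫_ℝ) 0 = -(2 * ⟪b 0 - u₁, b' 0⟫_ℝ) := rfl
      rw [zz, vb, vq, vb', vq', hk, real_inner_self_eq_norm_sq] at e2
      simp only [inner_zero_right, mul_zero, neg_zero, zero_mul, norm_zero, ne_eq,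
        OfNat.ofNat_ne_zero, not_false_eq_true, zero_pow, add_zero, zero_add] at e2
      rw [inner_smul_left, inner_smul_left]
      simp only [conj_trivial]
      rw [← hc₀, real_inner_self_eq_norm_sq] at e2
      linarith
  obtain ⟨m, hm1, hm2⟩ := lagr_max A C hsym0 himm (c₀ • Q w₀)
    ((1 + ‖Q w₀‖ ^ 2) • (B w₀ - u₁)) (fun v => (key v).1)
  -- positivity of the crossing form
  have hpos : ∀ k, A k = 0 → k ≠ 0 → 0 < ⟪C k, B2 m k⟫_ℝ := by
    intro k hk hk0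
    have h1 := (key k).2 hk
    have h2 := hS' k k m
    rw [hm1, hm2, hk, inner_zero_right, zero_add, real_inner_comm] at h2
    have h3 : C k ≠ 0 := fun h0 => hk0 (himm k hk h0)
    have h4 : 0 < c₀ * ‖C k‖ ^ 2 := mul_pos hc (pow_pos (norm_pos_iff.2 h3) 2)
    rw [hB2sym m k]
    linarith
  have hpath : HasDerivAt (fun s : ℝ => fderiv ℝ B (w₀ + s • m)) (B2 m) 0 := by
    have h0 : HasFDerivAt (fderiv ℝ B) B2 (w₀ + (0 : ℝ) • m) := by
      rw [zero_smul, add_zero]; exact hB2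
    exact h0.comp_hasDerivAt (0 : ℝ) (hlder m 0)
  have hcr := crossing (fun s : ℝ => fderiv ℝ B (w₀ + s • m)) (B2 m) C hpath
    (by intro u v; simp only [zero_smul, add_zero]; exact hsym0 u v)
    (by intro k hk hk0; simp only [zero_smul, add_zero] at hk; exact hpos k hk hk0)
  have hfr : ∃ᶠ s in 𝓝[>] (0 : ℝ), ∀ v, fderiv ℝ B (w₀ + s • m) v = 0 → v = 0 := hcr.frequently
  have ht : Tendsto (fun s : ℝ => w₀ + s • m) (𝓝[>] (0 : ℝ)) (𝓝 w₀) :=
    (hlim m).mono_left nhdsWithin_le_nhds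
  exact ht.frequently hfr

end Pool.Agent.H16.EL
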