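import Pool.Agent.H16.EL.Defs
import Pool.Agent.H16.EL.Loc

/-!
# Coordinates
-/

open scoped Manifold ContDiff Topology InnerProductSpace
open Bundle Set Filter

set_option linter.unusedSectionVars false

noncomputable section

namespace Pool.Agent.H16.EL

variable {n : ℕ} {N : Type*} [TopologicalSpace N] [ChartedSpace (E n) N] [IsManifold (𝓡 n) ∞ N]
variable {L : Type*} [TopologicalSpace L] [ChartedSpace (E n) L] [IsManifold (𝓡 n) ∞ L]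

/-- trivialization of `T*N` -/
abbrev triv (x₁ : N) := trivializationAt (E n →L[ℝ] ℝ)
  (fun x : N => TangentSpace (𝓡 n) x →L[ℝ] Trivial N ℝ x) x₁

/-- base coordinates of `j` in the charts at `y₁` and `x₁` -/
def Bc (j : L → CT n N) (y₁ : L) (x₁ : N) (w : E n) : E n :=
  extChartAt (𝓡 n) x₁ (j ((extChartAt (𝓡 n) y₁).symm w)).proj

/-- covector coordinates of `j` -/
def Pc (j : L → CT n N) (y₁ : L) (x₁ : N) (w : E n) : E n →L[ℝ] ℝ :=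
  (triv x₁ (j ((extChartAt (𝓡 n) y₁).symm w))).2

/-- covector coordinates of `j`, as a vector -/
def Qc (j : L → CT n N) (y₁ : L) (x₁ : N) (w : E n) : E n :=
  (InnerProductSpace.toDual ℝ (E n)).symm (Pc j y₁ x₁ w)

/-- domain of the coordinate expressions -/
def Dom (j : L → CT n N) (y₁ : L) (x₁ : N) : Set (E n) :=
  {w | w ∈ (extChartAt (𝓡 n) y₁).target ∧
    (j ((extChartAt (𝓡 n) y₁).symm w)).proj ∈ (chartAt (E n) x₁).source}

theorem mem_triv_source {x₁ : N} {z : CT n N} (h : z.proj ∈ (chartAt (E n) x₁).source) :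
    z ∈ (triv x₁).source := by
  rw [hom_trivializationAt_source]
  simp only [mem_preimage, mem_inter_iff]
  refine ⟨?_, ?_⟩
  · rw [TangentBundle.trivializationAt_baseSet]; exact h
  · simp

theorem contMDiff_b {j : L → CT n N} (hj : ContMDiff (𝓡 n) (ICT n) ∞ j) :
    ContMDiff (𝓡 n) (𝓡 n) ∞ (fun y => (j y).proj) := (contMDiff_proj _).comp hj

theorem isOpen_Dom {j : L → CT n N} (hj : ContMDiff (𝓡 n) (ICT n) ∞ j) (y₁ : L) (x₁ : N) :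
    IsOpen (Dom j y₁ x₁) := by
  have h1 : IsOpen (extChartAt (𝓡 n) y₁).target := isOpen_extChartAt_target y₁
  have h2 : ContinuousOn (fun w => (j ((extChartAt (𝓡 n) y₁).symm w)).proj)
      (extChartAt (𝓡 n) y₁).target :=
    (contMDiff_b hj).continuous.comp_continuousOn (continuousOn_extChartAt_symm y₁)
  exact h2.isOpen_inter_preimage h1 (chartAt (E n) x₁).open_source

section
variable {j : L → CT n N} {y₁ : L} {x₁ : N} {w : E n}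

theorem symm_contMDiffAt (hw : w ∈ (extChartAt (𝓡 n) y₁).target) :
    ContMDiffAt 𝓘(ℝ, E n) (𝓡 n) ∞ (extChartAt (𝓡 n) y₁).symm w :=
  (contMDiffOn_extChartAt_symm y₁).contMDiffAt ((isOpen_extChartAt_target y₁).mem_nhds hw)

theorem Bc_contDiffAt (hj : ContMDiff (𝓡 n) (ICT n) ∞ j) (hw : w ∈ Dom j y₁ x₁) :
    ContDiffAt ℝ ∞ (Bc j y₁ x₁) w := by
  rw [← contMDiffAt_iff_contDiffAt]
  have h1 := symm_contMDiffAt hw.1
  have h2 : ContMDiffAt 𝓘(ℝ, E n) (𝓡 n) ∞ (fun w => (j ((extChartAt (𝓡 n) y₁).symm w)).proj) w :=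
    (contMDiff_b hj).contMDiffAt.comp w h1
  exact (contMDiffAt_extChartAt' hw.2).comp w h2

theorem Pc_contDiffAt (hj : ContMDiff (𝓡 n) (ICT n) ∞ j) (hw : w ∈ Dom j y₁ x₁) :
    ContDiffAt ℝ ∞ (Pc j y₁ x₁) w := by
  rw [← contMDiffAt_iff_contDiffAt]
  have h1 := symm_contMDiffAt hw.1
  have h2 := ((triv x₁).contMDiffAt_iff (IM := 𝓡 n) (IB := 𝓡 n) (n := ∞) (f := j)
    (x₀ := (extChartAt (𝓡 n) y₁).symm w) (mem_triv_source hw.2)).1 hj.contMDiffAt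
  exact h2.2.comp w h1

theorem Qc_contDiffAt (hj : ContMDiff (𝓡 n) (ICT n) ∞ j) (hw : w ∈ Dom j y₁ x₁) :
    ContDiffAt ℝ ∞ (Qc j y₁ x₁) w :=
  (InnerProductSpace.toDual ℝ (E n)).symm.contDiff.contDiffAt.comp w (Pc_contDiffAt hj hw)

theorem Qc_inner (v : E n) : ⟪Qc j y₁ x₁ w, v⟫_ℝ = Pc j y₁ x₁ w v := by
  unfold Qc
  rw [InnerProductSpace.toDual_symm_apply]

theorem symm_bij (hw : w ∈ (extChartAt (𝓡 n) y₁).target) :
    Function.Bijective (mfderiv 𝓘(ℝ, E n) (𝓡 n) (extChartAt (𝓡 n) y₁).symm w) := by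
  have h := isInvertible_mfderivWithin_extChartAt_symm (I := 𝓡 n) (x := y₁) hw
  rw [ModelWithCorners.Boundaryless.range_eq_univ, mfderivWithin_univ] at h
  exact h.bijective

theorem chart_bij {x : N} (hx : x ∈ (chartAt (E n) x₁).source) :
    Function.Bijective (mfderiv (𝓡 n) 𝓘(ℝ, E n) (extChartAt (𝓡 n) x₁) x) := by
  have h := isInvertible_mfderiv_extChartAt (I := 𝓡 n) (x := x₁) (y := x)
    (by rw [extChartAt_source]; exact hx)
  exact h.bijective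

theorem fderiv_Bc (hj : ContMDiff (𝓡 n) (ICT n) ∞ j) (hw : w ∈ Dom j y₁ x₁) (v : E n) :
    fderiv ℝ (Bc j y₁ x₁) w v =
      mfderiv (𝓡 n) 𝓘(ℝ, E n) (extChartAt (𝓡 n) x₁) (j ((extChartAt (𝓡 n) y₁).symm w)).proj
        (mfderiv (𝓡 n) (𝓡 n) (fun y => (j y).proj) ((extChartAt (𝓡 n) y₁).symm w)
          (mfderiv 𝓘(ℝ, E n) (𝓡 n) (extChartAt (𝓡 n) y₁).symm w v)) := by
  have h1 := (symm_contMDiffAt hw.1).mdifferentiableAt (by simp)
  have h2 : MDifferentiableAt (𝓡 n) (𝓡 n) (fun y => (j y).proj)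
      ((extChartAt (𝓡 n) y₁).symm w) := (contMDiff_b hj).contMDiffAt.mdifferentiableAt (by simp)
  have h3 : MDifferentiableAt (𝓡 n) 𝓘(ℝ, E n) (extChartAt (𝓡 n) x₁)
      (j ((extChartAt (𝓡 n) y₁).symm w)).proj := mdifferentiableAt_extChartAt hw.2
  rw [← mfderiv_eq_fderiv]
  have e1 : mfderiv 𝓘(ℝ, E n) 𝓘(ℝ, E n) (Bc j y₁ x₁) w =
      (mfderiv (𝓡 n) 𝓘(ℝ, E n) (extChartAt (𝓡 n) x₁)
        (j ((extChartAt (𝓡 n) y₁).symm w)).proj).comp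
        (mfderiv 𝓘(ℝ, E n) (𝓡 n) (fun w => (j ((extChartAt (𝓡 n) y₁).symm w)).proj) w) :=
    mfderiv_comp w h3 (h2.comp w h1)
  have e2 : mfderiv 𝓘(ℝ, E n) (𝓡 n) (fun w => (j ((extChartAt (𝓡 n) y₁).symm w)).proj) w =
      (mfderiv (𝓡 n) (𝓡 n) (fun y => (j y).proj) ((extChartAt (𝓡 n) y₁).symm w)).comp
        (mfderiv 𝓘(ℝ, E n) (𝓡 n) (extChartAt (𝓡 n) y₁).symm w) :=
    mfderiv_comp w h2 h1
  rw [e1, e2]
  rfl

theorem Pc_apply (hw : w ∈ Dom j y₁ x₁)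
    (ζ : TangentSpace (𝓡 n) (j ((extChartAt (𝓡 n) y₁).symm w)).proj) :
    Pc j y₁ x₁ w (mfderiv (𝓡 n) 𝓘(ℝ, E n) (extChartAt (𝓡 n) x₁)
      (j ((extChartAt (𝓡 n) y₁).symm w)).proj ζ) = (j ((extChartAt (𝓡 n) y₁).symm w)).2 ζ := by
  have hb : (j ((extChartAt (𝓡 n) y₁).symm w)).proj ∈
      (trivializationAt (E n) (TangentSpace (𝓡 n)) x₁).baseSet := by
    rw [TangentBundle.trivializationAt_baseSet]; exact hw.2
  have h1 := (trivializationAt (E n) (TangentSpace (𝓡 n)) x₁).symmL_continuousLinearMapAt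
    (R := ℝ) hb ζ
  have h2 : (trivializationAt (E n) (TangentSpace (𝓡 n)) x₁).continuousLinearMapAt ℝ
      (j ((extChartAt (𝓡 n) y₁).symm w)).proj ζ = mfderiv (𝓡 n) 𝓘(ℝ, E n) (extChartAt (𝓡 n) x₁)
      (j ((extChartAt (𝓡 n) y₁).symm w)).proj ζ := by
    rw [TangentBundle.continuousLinearMapAt_trivializationAt hw.2]
    rfl
  rw [← h2]
  have h3 : Pc j y₁ x₁ w ((trivializationAt (E n) (TangentSpace (𝓡 n)) x₁).continuousLinearMapAt ℝ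
      (j ((extChartAt (𝓡 n) y₁).symm w)).proj ζ) =
      (j ((extChartAt (𝓡 n) y₁).symm w)).2
        ((trivializationAt (E n) (TangentSpace (𝓡 n)) x₁).symmL ℝ
          (j ((extChartAt (𝓡 n) y₁).symm w)).proj
          ((trivializationAt (E n) (TangentSpace (𝓡 n)) x₁).continuousLinearMapAt ℝ
            (j ((extChartAt (𝓡 n) y₁).symm w)).proj ζ)) := by
    unfold Pc triv
    rw [hom_trivializationAt_apply]
    simp only [ContinuousLinearMap.inCoordinates]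
    have h4 : (trivializationAt ℝ (Trivial N ℝ) x₁).continuousLinearMapAt ℝ
        (j ((extChartAt (𝓡 n) y₁).symm w)).proj = ContinuousLinearMap.id ℝ ℝ := by
      simp
    rw [h4]
    rfl
  rw [h3, h1]

/-- the relation `df = p db` -/
theorem exact_b (hj : ContMDiff (𝓡 n) (ICT n) ∞ j) (y : L) (v : TangentSpace (𝓡 n) y) :
    liouville (j y) (mfderiv (𝓡 n) (ICT n) j y v) =
      (j y).2 (mfderiv (𝓡 n) (𝓡 n) (fun y => (j y).proj) y v) := by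
  unfold liouville
  have h1 : MDifferentiableAt (ICT n) (𝓡 n) (TotalSpace.proj : CT n N → N) (j y) :=
    (contMDiffAt_proj (fun x : N => TangentSpace (𝓡 n) x →L[ℝ] Trivial N ℝ x)
      (n := ∞)).mdifferentiableAt (by simp)
  have h2 : MDifferentiableAt (𝓡 n) (ICT n) j y := hj.contMDiffAt.mdifferentiableAt (by simp)
  have h3 : mfderiv (𝓡 n) (𝓡 n) (fun y => (j y).proj) y =
      (mfderiv (ICT n) (𝓡 n) (TotalSpace.proj : CT n N → N) (j y)).comp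
        (mfderiv (𝓡 n) (ICT n) j y) := mfderiv_comp y h1 h2
  rw [h3]
  rfl

theorem fderiv_Fc (hj : ContMDiff (𝓡 n) (ICT n) ∞ j) {f : L → ℝ}
    (hf : ContMDiff (𝓡 n) 𝓘(ℝ, ℝ) ∞ f) (hfj : ∀ (y : L) (v : TangentSpace (𝓡 n) y),
      mfderiv (𝓡 n) 𝓘(ℝ, ℝ) f y v = liouville (j y) (mfderiv (𝓡 n) (ICT n) j y v))
    (hw : w ∈ Dom j y₁ x₁) (v : E n) :
    fderiv ℝ (fun w => f ((extChartAt (𝓡 n) y₁).symm w)) w v =
      ⟪Qc j y₁ x₁ w, fderiv ℝ (Bc j y₁ x₁) w v⟫_ℝ := by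
  rw [Qc_inner, fderiv_Bc hj hw, Pc_apply hw, ← exact_b hj, ← hfj]
  have h1 := (symm_contMDiffAt hw.1).mdifferentiableAt (by simp)
  have h2 : MDifferentiableAt (𝓡 n) 𝓘(ℝ, ℝ) f ((extChartAt (𝓡 n) y₁).symm w) :=
    hf.contMDiffAt.mdifferentiableAt (by simp)
  rw [← mfderiv_eq_fderiv]
  have e1 : mfderiv 𝓘(ℝ, E n) 𝓘(ℝ, ℝ) (fun w => f ((extChartAt (𝓡 n) y₁).symm w)) w =
      (mfderiv (𝓡 n) 𝓘(ℝ, ℝ) f ((extChartAt (𝓡 n) y₁).symm w)).comp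
        (mfderiv 𝓘(ℝ, E n) (𝓡 n) (extChartAt (𝓡 n) y₁).symm w) := mfderiv_comp w h2 h1
  rw [e1]
  rfl

/-- nondegenerate points of the projection -/
def Reg (j : L → CT n N) (y : L) : Prop :=
  Function.Injective (mfderiv (𝓡 n) (𝓡 n) (fun y => (j y).proj) y)

theorem reg_iff (hj : ContMDiff (𝓡 n) (ICT n) ∞ j) (hw : w ∈ Dom j y₁ x₁) :
    (∀ v, fderiv ℝ (Bc j y₁ x₁) w v = 0 → v = 0) ↔ Reg j ((extChartAt (𝓡 n) y₁).symm w) := by
  have hs := symm_bij hw.1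
  have hc := chart_bij hw.2
  constructor
  · intro h
    unfold Reg
    rw [injective_iff_map_eq_zero]
    intro ζ hζ
    obtain ⟨v, rfl⟩ := hs.2 ζ
    have h0 := fderiv_Bc hj hw v
    rw [hζ] at h0
    have h1 := h v (h0.trans (mfderiv (𝓡 n) 𝓘(ℝ, E n) (extChartAt (𝓡 n) x₁)
      (j ((extChartAt (𝓡 n) y₁).symm w)).proj).map_zero)
    have h2 : mfderiv 𝓘(ℝ, E n) (𝓡 n) (extChartAt (𝓡 n) y₁).symm w (0 : E n) = 0 :=
      ContinuousLinearMap.map_zero _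
    rw [← h2]
    exact congrArg _ h1
  · intro h v hv
    rw [fderiv_Bc hj hw] at hv
    have h1 := hc.1 (hv.trans (ContinuousLinearMap.map_zero _).symm)
    have h2 := h (h1.trans (ContinuousLinearMap.map_zero _).symm)
    exact hs.1 (h2.trans (ContinuousLinearMap.map_zero _).symm)

theorem immersion_coords (hj : ContMDiff (𝓡 n) (ICT n) ∞ j)
    (himm : ∀ y, Function.Injective (mfderiv (𝓡 n) (ICT n) j y)) (hw : w ∈ Dom j y₁ x₁)
    (v : E n) (hB : fderiv ℝ (Bc j y₁ x₁) w v = 0) (hQ : fderiv ℝ (Qc j y₁ x₁) w v = 0) :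
    v = 0 := by
  have hP : fderiv ℝ (Pc j y₁ x₁) w v = 0 := by
    have h1 : fderiv ℝ (Qc j y₁ x₁) w v =
        (InnerProductSpace.toDual ℝ (E n)).symm (fderiv ℝ (Pc j y₁ x₁) w v) := by
      have h2 : HasFDerivAt (Pc j y₁ x₁) (fderiv ℝ (Pc j y₁ x₁) w) w :=
        ((Pc_contDiffAt hj hw).differentiableAt (by simp)).hasFDerivAt
      have h3 := ((InnerProductSpace.toDual ℝ (E n)).symm.toContinuousLinearEquiv.toContinuousLinearMap.hasFDerivAt).comp w h2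
      have h4 : fderiv ℝ (Qc j y₁ x₁) w = _ := h3.fderiv
      rw [h4]
      rfl
    rw [hQ] at h1
    have := (InnerProductSpace.toDual ℝ (E n)).symm.injective (h1.symm.trans (map_zero _).symm)
    exact this
  -- the inverse of the coordinates
  set e := (triv x₁ : Trivialization (E n →L[ℝ] ℝ)
    (TotalSpace.proj : CT n N → N)) with he
  set Ψ : E n × (E n →L[ℝ] ℝ) → CT n N := fun p =>
    e.toOpenPartialHomeomorph.symm ((extChartAt (𝓡 n) x₁).symm p.1, p.2) with hΨ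
  have hBt : Bc j y₁ x₁ w ∈ (extChartAt (𝓡 n) x₁).target :=
    (extChartAt (𝓡 n) x₁).map_source (by rw [extChartAt_source]; exact hw.2)
  have hB0 : (extChartAt (𝓡 n) x₁).symm (Bc j y₁ x₁ w) =
      (j ((extChartAt (𝓡 n) y₁).symm w)).proj :=
    (extChartAt (𝓡 n) x₁).left_inv (by rw [extChartAt_source]; exact hw.2)
  have hΨd : MDifferentiableAt (𝓘(ℝ, E n).prod 𝓘(ℝ, E n →L[ℝ] ℝ)) (ICT n) Ψ
      (Bc j y₁ x₁ w, Pc j y₁ x₁ w) := by
    have h1 : ContMDiffAt (𝓘(ℝ, E n).prod 𝓘(ℝ, E n →L[ℝ] ℝ)) ((𝓡 n).prod 𝓘(ℝ, E n →L[ℝ] ℝ)) ∞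
        (fun p : E n × (E n →L[ℝ] ℝ) => ((extChartAt (𝓡 n) x₁).symm p.1, p.2))
        (Bc j y₁ x₁ w, Pc j y₁ x₁ w) := by
      refine ContMDiffAt.prodMk ?_ contMDiffAt_snd
      exact (((contMDiffOn_extChartAt_symm x₁).contMDiffAt
        ((isOpen_extChartAt_target x₁).mem_nhds hBt)).comp
          (Bc j y₁ x₁ w, Pc j y₁ x₁ w) contMDiffAt_fst)
    have h2 : ContMDiffAt ((𝓡 n).prod 𝓘(ℝ, E n →L[ℝ] ℝ)) (ICT n) ∞ e.toOpenPartialHomeomorph.symm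
        ((extChartAt (𝓡 n) x₁).symm (Bc j y₁ x₁ w), Pc j y₁ x₁ w) := by
      refine (e.contMDiffOn_symm (IB := 𝓡 n) (n := ∞)).contMDiffAt
        (e.open_target.mem_nhds ?_)
      rw [e.mem_target, hB0]
      exact e.mem_source.1 (mem_triv_source hw.2)
    exact (h2.comp (Bc j y₁ x₁ w, Pc j y₁ x₁ w) h1).mdifferentiableAt (by simp)
  have hBP : MDifferentiableAt 𝓘(ℝ, E n) (𝓘(ℝ, E n).prod 𝓘(ℝ, E n →L[ℝ] ℝ))
      (fun w => (Bc j y₁ x₁ w, Pc j y₁ x₁ w)) w :=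
    (((Bc_contDiffAt hj hw).differentiableAt (by simp)).mdifferentiableAt).prodMk
      (((Pc_contDiffAt hj hw).differentiableAt (by simp)).mdifferentiableAt)
  have hev : (fun w => j ((extChartAt (𝓡 n) y₁).symm w)) =ᶠ[𝓝 w]
      fun w => Ψ (Bc j y₁ x₁ w, Pc j y₁ x₁ w) := by
    filter_upwards [(isOpen_Dom hj y₁ x₁).mem_nhds hw] with w' hw'
    have h0 : (extChartAt (𝓡 n) x₁).symm (Bc j y₁ x₁ w') =
        (j ((extChartAt (𝓡 n) y₁).symm w')).proj :=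
      (extChartAt (𝓡 n) x₁).left_inv (by rw [extChartAt_source]; exact hw'.2)
    simp only [hΨ]
    rw [h0]
    have h1 : ((j ((extChartAt (𝓡 n) y₁).symm w')).proj, Pc j y₁ x₁ w') =
        e (j ((extChartAt (𝓡 n) y₁).symm w')) := by
      ext1
      · exact (e.coe_fst (mem_triv_source hw'.2)).symm
      · rfl
    rw [h1]
    exact (e.toOpenPartialHomeomorph.left_inv (mem_triv_source hw'.2)).symm
  have h1 := (symm_contMDiffAt hw.1).mdifferentiableAt (by simp)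
  have h2 : MDifferentiableAt (𝓡 n) (ICT n) j ((extChartAt (𝓡 n) y₁).symm w) :=
    hj.contMDiffAt.mdifferentiableAt (by simp)
  have e1 : mfderiv 𝓘(ℝ, E n) (ICT n) (fun w => j ((extChartAt (𝓡 n) y₁).symm w)) w =
      (mfderiv (𝓡 n) (ICT n) j ((extChartAt (𝓡 n) y₁).symm w)).comp
        (mfderiv 𝓘(ℝ, E n) (𝓡 n) (extChartAt (𝓡 n) y₁).symm w) := mfderiv_comp w h2 h1
  have e2 : mfderiv 𝓘(ℝ, E n) (ICT n) (fun w => Ψ (Bc j y₁ x₁ w, Pc j y₁ x₁ w)) w =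
      (mfderiv (𝓘(ℝ, E n).prod 𝓘(ℝ, E n →L[ℝ] ℝ)) (ICT n) Ψ (Bc j y₁ x₁ w, Pc j y₁ x₁ w)).comp
        (mfderiv 𝓘(ℝ, E n) (𝓘(ℝ, E n).prod 𝓘(ℝ, E n →L[ℝ] ℝ))
          (fun w => (Bc j y₁ x₁ w, Pc j y₁ x₁ w)) w) := mfderiv_comp w hΨd hBP
  have e3 : mfderiv 𝓘(ℝ, E n) (𝓘(ℝ, E n).prod 𝓘(ℝ, E n →L[ℝ] ℝ))
          (fun w => (Bc j y₁ x₁ w, Pc j y₁ x₁ w)) w v = 0 := by
    rw [mfderiv_prodMk (((Bc_contDiffAt hj hw).differentiableAt (by simp)).mdifferentiableAt)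
      (((Pc_contDiffAt hj hw).differentiableAt (by simp)).mdifferentiableAt)]
    rw [mfderiv_eq_fderiv, mfderiv_eq_fderiv]
    show (fderiv ℝ (Bc j y₁ x₁) w v, fderiv ℝ (Pc j y₁ x₁) w v) = 0
    rw [hB, hP]
    rfl
  have e4 := hev.mfderiv_eq (I := 𝓘(ℝ, E n)) (I' := ICT n)
  rw [e1, e2] at e4
  have e5 := congrArg (fun A => A v) e4
  have e6 : mfderiv (𝓡 n) (ICT n) j ((extChartAt (𝓡 n) y₁).symm w)
      (mfderiv 𝓘(ℝ, E n) (𝓡 n) (extChartAt (𝓡 n) y₁).symm w v) = 0 := by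
    have e7 : mfderiv (𝓡 n) (ICT n) j ((extChartAt (𝓡 n) y₁).symm w)
      (mfderiv 𝓘(ℝ, E n) (𝓡 n) (extChartAt (𝓡 n) y₁).symm w v) =
      (mfderiv (𝓘(ℝ, E n).prod 𝓘(ℝ, E n →L[ℝ] ℝ)) (ICT n) Ψ (Bc j y₁ x₁ w, Pc j y₁ x₁ w))
        (mfderiv 𝓘(ℝ, E n) (𝓘(ℝ, E n).prod 𝓘(ℝ, E n →L[ℝ] ℝ))
          (fun w => (Bc j y₁ x₁ w, Pc j y₁ x₁ w)) w v) := e5
    rw [e7, e3]
    exact (mfderiv (𝓘(ℝ, E n).prod 𝓘(ℝ, E n →L[ℝ] ℝ)) (ICT n) Ψ
      (Bc j y₁ x₁ w, Pc j y₁ x₁ w)).map_zero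
  have e8 : mfderiv 𝓘(ℝ, E n) (𝓡 n) (extChartAt (𝓡 n) y₁).symm w v = 0 := by
    apply himm ((extChartAt (𝓡 n) y₁).symm w)
    rw [e6]
    exact ((mfderiv (𝓡 n) (ICT n) j ((extChartAt (𝓡 n) y₁).symm w)).map_zero).symm
  exact (symm_bij hw.1).1 (e8.trans (ContinuousLinearMap.map_zero _).symm)

end

end Pool.Agent.H16.EL
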