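import Pool.Agent.H16.EL.Pub

/-!
# Exact Lagrangian embeddings into cotangent bundles: internal definitions

Manifolds are smooth, without boundary, modelled on `ℝⁿ`.
-/

open scoped Manifold ContDiff Topology
open Bundle Set

noncomputable section

namespace Pool.Agent.H16.EL

/-- the model space `ℝⁿ` -/
abbrev E (n : ℕ) := EuclideanSpace ℝ (Fin n)

/-- the model with corners of `T*N` -/
abbrev ICT (n : ℕ) := (𝓡 n).prod 𝓘(ℝ, E n →L[ℝ] ℝ)

/-- the cotangent bundle `T*N` of a smooth `n`-manifold `N`: pairs of a point `x` (`proj`) and a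
linear form on `T_x N` (`snd`), with Mathlib's topology and smooth structure of the bundle of
linear maps from `TN` to the trivial line bundle -/
abbrev CT (n : ℕ) (N : Type*) [TopologicalSpace N] [ChartedSpace (E n) N] [IsManifold (𝓡 n) ∞ N] :=
  TotalSpace (E n →L[ℝ] ℝ) (fun x : N => TangentSpace (𝓡 n) x →L[ℝ] Trivial N ℝ x)

section
variable {n : ℕ} {N : Type*} [TopologicalSpace N] [ChartedSpace (E n) N] [IsManifold (𝓡 n) ∞ N]

/-- the Liouville form `λ = p dq` on `T*N`: `λ_(x,p)(ξ) = p(dπ ξ)` -/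
def liouville (z : CT n N) (ξ : TangentSpace (ICT n) z) : ℝ :=
  z.2 (mfderiv (ICT n) (𝓡 n) (TotalSpace.proj : CT n N → N) z ξ)

/-- the zero section of `T*N` -/
def zeroSec (n : ℕ) (N : Type*) [TopologicalSpace N] [ChartedSpace (E n) N]
    [IsManifold (𝓡 n) ∞ N] : Set (CT n N) := {z | z.2 = 0}

variable {L : Type*} [TopologicalSpace L] [ChartedSpace (E n) L] [IsManifold (𝓡 n) ∞ L]

/-- an exact Lagrangian embedding `j : L → T*N` of a closed manifold of the same dimension as `N`:
an injective smooth immersion (an embedding, as `L` is compact) such that `j*λ = df` for a smooth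
function `f` -/
structure ExactLagrangian (j : L → CT n N) : Prop where
  smooth : ContMDiff (𝓡 n) (ICT n) ∞ j
  inj : Function.Injective j
  immersion : ∀ y, Function.Injective (mfderiv (𝓡 n) (ICT n) j y)
  exact : ∃ f : L → ℝ, ContMDiff (𝓡 n) 𝓘(ℝ, ℝ) ∞ f ∧
    ∀ (y : L) (v : TangentSpace (𝓡 n) y),
      mfderiv (𝓡 n) 𝓘(ℝ, ℝ) f y v = liouville (j y) (mfderiv (𝓡 n) (ICT n) j y v)

/-- `Φ` is a diffeomorphism of `T*N` that covers the homeomorphism `g` of `N` and preserves the
Liouville form (such `Φ` are the cotangent lifts of diffeomorphisms of `N`) -/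
structure IsLift (g : N ≃ₜ N) (Φ : Diffeomorph (ICT n) (ICT n) (CT n N) (CT n N) ∞) : Prop where
  cover : ∀ z : CT n N, (Φ z).proj = g z.proj
  pres : ∀ (z : CT n N) (ξ : TangentSpace (ICT n) z),
    liouville (Φ z) (mfderiv (ICT n) (ICT n) Φ z ξ) = liouville z ξ

end

end Pool.Agent.H16.EL
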