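import Pool.Agent.H16.EL.Reg

/-!
# A closed exact Lagrangian has nondegenerate points
-/

open scoped Manifold ContDiff Topology InnerProductSpace
open Bundle Set Filter

set_option linter.unusedSectionVars false

noncomputable section

namespace Pool.Agent.H16.EL

variable {n : ℕ} {N : Type*} [TopologicalSpace N] [ChartedSpace (E n) N] [IsManifold (𝓡 n) ∞ N]
variable {L : Type*} [TopologicalSpace L] [ChartedSpace (E n) L] [IsManifold (𝓡 n) ∞ L]

theorem norm_Qc {j : L → CT n N} {y₁ : L} {x₁ : N} (w : E n) :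
    ‖Qc j y₁ x₁ w‖ = ‖Pc j y₁ x₁ w‖ :=
  (InnerProductSpace.toDual ℝ (E n)).symm.norm_map _

theorem exists_reg [CompactSpace L] [Nonempty L] [T2Space N] {j : L → CT n N}
    (hj : ExactLagrangian j) : ∃ y, Reg j y := by
  obtain ⟨y₀⟩ := (inferInstance : Nonempty L)
  set x₁ : N := (j y₀).proj with hx₁
  set ψ := extChartAt (𝓡 n) x₁ with hψ
  set u₁ : E n := ψ x₁ with hu₁
  obtain ⟨r, hr, hball⟩ := Metric.nhds_basis_closedBall.mem_iff.1
    ((isOpen_extChartAt_target (I := 𝓡 n) x₁).mem_nhds (mem_extChartAt_target x₁))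
  have hb : Continuous (fun y => (j y).proj) := (contMDiff_b hj.smooth).continuous
  set KN : Set N := ψ.symm '' Metric.closedBall u₁ r with hKN
  have hKNc : IsCompact KN := (isCompact_closedBall u₁ r).image_of_continuousOn
    ((continuousOn_extChartAt_symm x₁).mono hball)
  set K : Set L := (fun y => (j y).proj) ⁻¹' KN with hK
  have hKc : IsCompact K := (hKNc.isClosed.preimage hb).isCompact
  have hsrc : ∀ y ∈ K, (j y).proj ∈ (chartAt (E n) x₁).source ∧
      ‖ψ (j y).proj - u₁‖ ≤ r := by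
    rintro y ⟨u, hu, huy⟩
    simp only at huy
    rw [← huy]
    constructor
    · rw [← extChartAt_source (𝓡 n)]
      exact ψ.map_target (hball hu)
    · rw [ψ.right_inv (hball hu), ← dist_eq_norm]
      exact hu
  set G : L → ℝ := fun y => (r ^ 2 - ‖ψ (j y).proj - u₁‖ ^ 2) * (1 + ‖(triv x₁ (j y)).2‖ ^ 2)
    with hG
  have hGc : ContinuousOn G K := by
    have c1 : ContinuousOn (fun y => ψ (j y).proj) K := by
      refine (continuousOn_extChartAt x₁).comp hb.continuousOn ?_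
      intro y hy
      rw [extChartAt_source]
      exact (hsrc y hy).1
    have c2 : ContinuousOn (fun y => (triv x₁ (j y)).2) K := by
      intro y hy
      have h2 := ((triv x₁).contMDiffAt_iff (IM := 𝓡 n) (IB := 𝓡 n) (n := ∞) (f := j)
        (x₀ := y) (mem_triv_source (hsrc y hy).1)).1 hj.smooth.contMDiffAt
      exact h2.2.continuousAt.continuousWithinAt
    exact (continuousOn_const.sub ((c1.sub continuousOn_const).norm.pow 2)).mul
      (continuousOn_const.add (c2.norm.pow 2))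
  have hy₀K : y₀ ∈ K := by
    refine ⟨u₁, Metric.mem_closedBall_self hr.le, ?_⟩
    exact extChartAt_to_inv (I := 𝓡 n) x₁
  obtain ⟨ys, hysK, hmax⟩ := hKc.exists_isMaxOn ⟨y₀, hy₀K⟩ hGc
  have hG0 : 0 < G y₀ := by
    simp only [hG]
    have : ψ (j y₀).proj - u₁ = 0 := by rw [hu₁, hx₁, sub_self]
    rw [this, norm_zero]
    have e0 : r ^ 2 - (0 : ℝ) ^ 2 = r ^ 2 := by ring
    rw [e0]
    positivity
  have hGs : 0 < G ys := hG0.trans_le (hmax hy₀K)
  have hlt : ‖ψ (j ys).proj - u₁‖ ^ 2 < r ^ 2 := by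
    by_contra hcon
    rw [not_lt] at hcon
    have h1 : r ^ 2 - ‖ψ (j ys).proj - u₁‖ ^ 2 ≤ 0 := by linarith
    have h2 : 0 ≤ 1 + ‖(triv x₁ (j ys)).2‖ ^ 2 := by positivity
    have h3 : G ys ≤ 0 := mul_nonpos_of_nonpos_of_nonneg h1 h2
    linarith
  have hlt' : ‖ψ (j ys).proj - u₁‖ < r := lt_of_pow_lt_pow_left₀ 2 hr.le hlt
  -- near `ys` we are in `K`
  have hnear : ∀ᶠ y in 𝓝 ys, y ∈ K := by
    have h1 : ∀ᶠ y in 𝓝 ys, (j y).proj ∈ (chartAt (E n) x₁).source :=
      hb.continuousAt.eventually ((chartAt (E n) x₁).open_source.mem_nhds (hsrc ys hysK).1)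
    have h2 : ContinuousAt (fun y => ψ (j y).proj) ys :=
      (continuousAt_extChartAt' (I := 𝓡 n) (x := x₁)
        (by rw [extChartAt_source]; exact (hsrc ys hysK).1)).comp
        hb.continuousAt
    have h3 : ∀ᶠ y in 𝓝 ys, ‖ψ (j y).proj - u₁‖ < r :=
      (h2.sub continuousAt_const).norm.eventually (gt_mem_nhds hlt')
    filter_upwards [h1, h3] with y z1 z3
    refine ⟨ψ (j y).proj, ?_, ?_⟩
    · rw [Metric.mem_closedBall, dist_eq_norm]; exact z3.le
    · exact ψ.left_inv (by rw [hψ, extChartAt_source]; exact z1)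
  have hw : extChartAt (𝓡 n) ys ys ∈ Dom j ys x₁ := mem_Dom (mem_chart_source _ _) (hsrc ys hysK).1
  set w₀ := extChartAt (𝓡 n) ys ys with hw₀
  have hφ0 : (extChartAt (𝓡 n) ys).symm w₀ = ys := extChartAt_to_inv (I := 𝓡 n) ys
  have hloc : IsLocalMax (fun w => (r ^ 2 - ‖Bc j ys x₁ w - u₁‖ ^ 2) *
      (1 + ‖Qc j ys x₁ w‖ ^ 2)) w₀ := by
    have h1 : ∀ᶠ w in 𝓝 w₀, (extChartAt (𝓡 n) ys).symm w ∈ K := (symm_tendsto ys).eventually hnear
    filter_upwards [h1] with w hwK
    have h2 := hmax hwK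
    simp only [mem_ofPred_eq, hG] at h2
    simp only [norm_Qc]
    have e1 : Bc j ys x₁ w₀ = ψ (j ys).proj := by unfold Bc; rw [hφ0]
    have e2 : Pc j ys x₁ w₀ = (triv x₁ (j ys)).2 := by unfold Pc; rw [hφ0]
    rw [e1, e2]
    exact h2
  have hc : 0 < r ^ 2 - ‖Bc j ys x₁ w₀ - u₁‖ ^ 2 := by
    have e1 : Bc j ys x₁ w₀ = ψ (j ys).proj := by unfold Bc; rw [hφ0]
    rw [e1]; linarith
  have hopen := open_point ((Bc_contDiffAt hj.smooth hw).of_le two_le_infty)
    ((Qc_contDiffAt hj.smooth hw).of_le two_le_infty)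
    (by
      filter_upwards [(isOpen_Dom hj.smooth ys x₁).mem_nhds hw] with w' hw' u v
      exact symm_form hj hw' u v)
    (fun v h1 h2 => immersion_coords hj.smooth hj.immersion hw v h1 h2) r u₁ hc hloc
  obtain ⟨w, hw1, hw2⟩ := (hopen.and_eventually ((isOpen_Dom hj.smooth ys x₁).mem_nhds hw)).exists
  exact ⟨_, (reg_iff hj.smooth hw2).1 hw1⟩

end Pool.Agent.H16.EL
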