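import Mathlib

/-!
# Linear algebra of Lagrangian planes, and the crossing argument

`V` is a finite-dimensional real inner product space; a Lagrangian plane in `V × V` is given as the
image of `v ↦ (A v, C v)` with `⟪C u, A v⟫ = ⟪C v, A u⟫`.
-/

open scoped Topology InnerProductSpace
open Set Filter

namespace Pool.Agent.H16.EL

variable {V : Type*} [NormedAddCommGroup V] [InnerProductSpace ℝ V] [FiniteDimensional ℝ V]

/-- an isotropic plane of half dimension contains its symplectic orthogonal -/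
theorem lagr_max (A C : V →L[ℝ] V) (hsym : ∀ u v, ⟪C u, A v⟫_ℝ = ⟪C v, A u⟫_ℝ)
    (hinj : ∀ v, A v = 0 → C v = 0 → v = 0) (u θ : V) (h : ∀ v, ⟪u, C v⟫_ℝ = ⟪θ, A v⟫_ℝ) :
    ∃ m, A m = u ∧ C m = θ := by
  let M : V × V →ₗ[ℝ] V × V :=
    { toFun := fun x => (A x.1 + C x.2, C x.1 - A x.2)
      map_add' := by
        intro x y
        ext <;> simp <;> abel
      map_smul' := by
        intro c x
        ext <;> simp [smul_sub] }
  have hM : Function.Injective M := by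
    rw [injective_iff_map_eq_zero]
    intro x hx
    have h1 : A x.1 + C x.2 = 0 := congrArg Prod.fst hx
    have h2 : C x.1 - A x.2 = 0 := congrArg Prod.snd hx
    have e1 : ‖A x.1 + C x.2‖ ^ 2 + ‖C x.1 - A x.2‖ ^ 2 =
        ‖A x.1‖ ^ 2 + ‖C x.1‖ ^ 2 + (‖A x.2‖ ^ 2 + ‖C x.2‖ ^ 2) := by
      rw [norm_add_sq_real, norm_sub_sq_real, hsym x.1 x.2, real_inner_comm (C x.2) (A x.1)]
      ring
    rw [h1, h2] at e1
    simp only [norm_zero] at e1
    have p1 := sq_nonneg ‖A x.1‖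
    have p2 := sq_nonneg ‖C x.1‖
    have p3 := sq_nonneg ‖A x.2‖
    have p4 := sq_nonneg ‖C x.2‖
    have z1 : ‖A x.1‖ ^ 2 = 0 := by nlinarith
    have z2 : ‖C x.1‖ ^ 2 = 0 := by nlinarith
    have z3 : ‖A x.2‖ ^ 2 = 0 := by nlinarith
    have z4 : ‖C x.2‖ ^ 2 = 0 := by nlinarith
    have w : ∀ y : V, ‖y‖ ^ 2 = 0 → y = 0 := by
      intro y hy
      exact norm_eq_zero.1 (pow_eq_zero_iff (two_ne_zero) |>.1 hy)
    ext1
    · exact hinj _ (w _ z1) (w _ z2)
    · exact hinj _ (w _ z3) (w _ z4)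
  have hS : Function.Surjective M := LinearMap.injective_iff_surjective.1 hM
  obtain ⟨x, hx⟩ := hS (u, θ)
  have h1 : A x.1 + C x.2 = u := congrArg Prod.fst hx
  have h2 : C x.1 - A x.2 = θ := congrArg Prod.snd hx
  have h3 := h x.2
  rw [← h1, ← h2, inner_add_left, inner_sub_left, hsym x.1 x.2,
    real_inner_comm (C x.2) (A x.1), real_inner_self_eq_norm_sq, real_inner_self_eq_norm_sq] at h3
  have p3 := sq_nonneg ‖A x.2‖
  have p4 := sq_nonneg ‖C x.2‖
  have z3 : ‖A x.2‖ ^ 2 = 0 := by nlinarith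
  have z4 : ‖C x.2‖ ^ 2 = 0 := by nlinarith
  have w : ∀ y : V, ‖y‖ ^ 2 = 0 → y = 0 := by
    intro y hy
    exact norm_eq_zero.1 (pow_eq_zero_iff (two_ne_zero) |>.1 hy)
  refine ⟨x.1, ?_, ?_⟩
  · rw [w _ z4, add_zero] at h1; exact h1
  · rw [w _ z3, sub_zero] at h2; exact h2

/-- Crossing argument: a differentiable path of operators whose first order part is definite on
the kernel is nonsingular arbitrarily near the base time. -/
theorem crossing (A : ℝ → V →L[ℝ] V) (A' C : V →L[ℝ] V) (hA : HasDerivAt A A' 0)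
    (hsym : ∀ u v, ⟪C u, A 0 v⟫_ℝ = ⟪C v, A 0 u⟫_ℝ)
    (hpos : ∀ k, A 0 k = 0 → k ≠ 0 → 0 < ⟪C k, A' k⟫_ℝ) :
    ∀ᶠ s in 𝓝[>] (0 : ℝ), ∀ v, A s v = 0 → v = 0 := by
  by_contra hcon
  rw [not_eventually] at hcon
  obtain ⟨s, hs, hbad⟩ := exists_seq_forall_of_frequently hcon
  have hunit : ∀ i, ∃ k : V, ‖k‖ = 1 ∧ A (s i) k = 0 := by
    intro i
    have := hbad i
    push Not at this
    obtain ⟨v, hv, hv0⟩ := this
    refine ⟨(‖v‖)⁻¹ • v, ?_, ?_⟩
    · rw [norm_smul, norm_inv, norm_norm, inv_mul_cancel₀ (norm_ne_zero_iff.2 hv0)]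
    · rw [map_smul, hv, smul_zero]
  choose k hk hAk using hunit
  obtain ⟨k₀, hk₀, φ, hφ, hlim⟩ := (isCompact_sphere (0 : V) 1).tendsto_subseq
    (x := k) (fun i => by simp [hk i])
  have hk1 : ‖k₀‖ = 1 := by simpa using hk₀
  have hsφ : Tendsto (fun i => s (φ i)) atTop (𝓝[>] (0 : ℝ)) := hs.comp hφ.tendsto_atTop
  have hs0 : Tendsto (fun i => s (φ i)) atTop (𝓝 (0 : ℝ)) :=
    hsφ.mono_right nhdsWithin_le_nhds
  have hspos : ∀ᶠ i in atTop, 0 < s (φ i) := hsφ.eventually self_mem_nhdsWithin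
  have hAc : Tendsto (fun i => A (s (φ i))) atTop (𝓝 (A 0)) :=
    hA.continuousAt.tendsto.comp hs0
  -- `A 0 k₀ = 0`
  have hker : A 0 k₀ = 0 := by
    have h1 : Tendsto (fun i => A (s (φ i)) (k (φ i))) atTop (𝓝 (A 0 k₀)) :=
      (isBoundedBilinearMap_apply.continuous.tendsto (A 0, k₀)).comp (hAc.prodMk_nhds hlim)
    have h2 : (fun i => A (s (φ i)) (k (φ i))) = fun _ => (0 : V) := by
      funext i; exact hAk _
    rw [h2] at h1
    exact tendsto_nhds_unique tendsto_const_nhds h1 |>.symm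
  -- difference quotients
  have hq : Tendsto (fun i => (s (φ i))⁻¹ • (A (s (φ i)) - A 0)) atTop (𝓝 A') := by
    have h1 := hasDerivAt_iff_tendsto_slope.1 hA
    have h2 : Tendsto (fun i => s (φ i)) atTop (𝓝[≠] (0 : ℝ)) :=
      hsφ.mono_right (nhdsWithin_mono _ (fun x hx => ne_of_gt hx))
    have h3 := h1.comp h2
    refine h3.congr fun i => ?_
    simp [slope_def_module]
  have hq2 : Tendsto (fun i => ⟪C k₀, ((s (φ i))⁻¹ • (A (s (φ i)) - A 0)) (k (φ i))⟫_ℝ) atTop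
      (𝓝 ⟪C k₀, A' k₀⟫_ℝ) := by
    have h1 : Tendsto (fun i => ((s (φ i))⁻¹ • (A (s (φ i)) - A 0)) (k (φ i))) atTop
        (𝓝 (A' k₀)) :=
      (isBoundedBilinearMap_apply.continuous.tendsto (A', k₀)).comp (hq.prodMk_nhds hlim)
    exact tendsto_const_nhds.inner h1
  have hz : ∀ i, ⟪C k₀, ((s (φ i))⁻¹ • (A (s (φ i)) - A 0)) (k (φ i))⟫_ℝ = 0 := by
    intro i
    rw [smul_apply, sub_apply, hAk, zero_sub, smul_neg,
      inner_neg_right, inner_smul_right, hsym k₀ (k (φ i)), hker, inner_zero_right, mul_zero,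
      neg_zero]
  have hlim0 : ⟪C k₀, A' k₀⟫_ℝ = 0 := by
    have : Tendsto (fun _ : ℕ => (0 : ℝ)) atTop (𝓝 ⟪C k₀, A' k₀⟫_ℝ) :=
      hq2.congr hz
    exact (tendsto_nhds_unique tendsto_const_nhds this).symm
  have hne : k₀ ≠ 0 := by
    intro h0; rw [h0, norm_zero] at hk1; exact zero_ne_one hk1
  exact absurd hlim0 (ne_of_gt (hpos k₀ hker hne))

end Pool.Agent.H16.EL
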