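import Mathlib

/-!
# Exact Lagrangian embeddings into cotangent bundles: public definitions

Manifolds are smooth, without boundary, modelled on `ℝⁿ`. The cotangent bundle is Mathlib's bundle
of linear maps from the tangent bundle to the trivial line bundle. The standard types below are
wrapped in definitions (with the standard structures), only to keep the statements short.
-/

open scoped Manifold ContDiff Topology
open Bundle Set

noncomputable section

namespace Pool.Agent.H16.EL

/-- the model space `ℝⁿ` -/
def Rn (n : ℕ) : Type := EuclideanSpace ℝ (Fin n)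

instance Rn.group (n : ℕ) : NormedAddCommGroup (Rn n) :=
  (inferInstance : NormedAddCommGroup (EuclideanSpace ℝ (Fin n)))

instance Rn.space (n : ℕ) : NormedSpace ℝ (Rn n) :=
  (inferInstance : NormedSpace ℝ (EuclideanSpace ℝ (Fin n)))

/-- the model with corners (no corners) of `n`-manifolds -/
def IRn (n : ℕ) : ModelWithCorners ℝ (Rn n) (Rn n) := 𝓘(ℝ, Rn n)

/-- the dual space of `ℝⁿ` -/
def Rd (n : ℕ) : Type := Rn n →L[ℝ] ℝ

instance Rd.group (n : ℕ) : NormedAddCommGroup (Rd n) :=
  (inferInstance : NormedAddCommGroup (Rn n →L[ℝ] ℝ))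

instance Rd.space (n : ℕ) : NormedSpace ℝ (Rd n) :=
  (inferInstance : NormedSpace ℝ (Rn n →L[ℝ] ℝ))

/-- the model vector space `ℝⁿ × (ℝⁿ)*` of the cotangent bundle -/
def RT (n : ℕ) : Type := Rn n × Rd n

instance RT.group (n : ℕ) : NormedAddCommGroup (RT n) :=
  (inferInstance : NormedAddCommGroup (Rn n × Rd n))

instance RT.space (n : ℕ) : NormedSpace ℝ (RT n) :=
  (inferInstance : NormedSpace ℝ (Rn n × Rd n))

/-- the model space `ℝⁿ × (ℝⁿ)*` of the cotangent bundle -/
def HT (n : ℕ) : Type := ModelProd (Rn n) (Rd n)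

instance HT.top (n : ℕ) : TopologicalSpace (HT n) :=
  (inferInstance : TopologicalSpace (ModelProd (Rn n) (Rd n)))

/-- the model with corners (no corners) of the cotangent bundle -/
def IRT (n : ℕ) : ModelWithCorners ℝ (RT n) (HT n) := (IRn n).prod 𝓘(ℝ, Rd n)

section
variable (n : ℕ) (N : Type*) [TopologicalSpace N] [ChartedSpace (Rn n) N] [IsManifold (IRn n) ∞ N]

/-- the cotangent bundle `T*N` of a smooth `n`-manifold `N`: pairs of a point `x` and a linear form
on `T_x N` (total space of the bundle of continuous linear maps `TN → ℝ`) -/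
def TStar : Type _ :=
  TotalSpace (Rd n) (fun x : N => TangentSpace (IRn n) x →L[ℝ] Trivial N ℝ x)

/-- the topology of the cotangent bundle (Mathlib) -/
instance TStar.top : TopologicalSpace (TStar n N) :=
  (inferInstance : TopologicalSpace (TotalSpace (Rn n →L[ℝ] ℝ)
    (fun x : N => TangentSpace (IRn n) x →L[ℝ] Trivial N ℝ x)))

/-- the charts of the cotangent bundle (Mathlib) -/
instance TStar.charted : ChartedSpace (HT n) (TStar n N) :=
  (inferInstance : ChartedSpace (ModelProd (Rn n) (Rn n →L[ℝ] ℝ)) (TotalSpace (Rn n →L[ℝ] ℝ)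
    (fun x : N => TangentSpace (IRn n) x →L[ℝ] Trivial N ℝ x)))

end

section
variable {n : ℕ} {N : Type*} [TopologicalSpace N] [ChartedSpace (Rn n) N] [IsManifold (IRn n) ∞ N]

/-- the base point (the projection `T*N → N`) -/
def TStar.pt (z : TStar n N) : N := TotalSpace.proj z

/-- the linear form on the tangent space at the base point -/
def TStar.cov (z : TStar n N) : TangentSpace (IRn n) z.pt →L[ℝ] ℝ := TotalSpace.snd z

/-- the derivative of the projection `T*N → N` at `z`, applied to `ξ` -/
def dpt (z : TStar n N) (ξ : TangentSpace (IRT n) z) : TangentSpace (IRn n) z.pt :=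
  mfderiv (IRT n) (IRn n) (TStar.pt : TStar n N → N) z ξ

/-- the Liouville form `λ = p dq` on `T*N`: `λ_(x,p)(ξ) = p(dπ ξ)` -/
def liouv (z : TStar n N) (ξ : TangentSpace (IRT n) z) : ℝ := z.cov (dpt z ξ)

variable (n N) in
/-- the zero section of `T*N` -/
def zeroSection : Set (TStar n N) := {z | ∀ v, z.cov v = 0}

/-- the derivative of a self map of `T*N` at `z`, applied to `ξ` -/
def dself (Φ : TStar n N → TStar n N) (z : TStar n N) (ξ : TangentSpace (IRT n) z) :
    TangentSpace (IRT n) (Φ z) := mfderiv (IRT n) (IRT n) Φ z ξ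

variable {L : Type*} [TopologicalSpace L] [ChartedSpace (Rn n) L]

/-- the derivative of a map `L → T*N` at `y`, applied to `v` -/
def dmap (j : L → TStar n N) (y : L) (v : TangentSpace (IRn n) y) : TangentSpace (IRT n) (j y) :=
  mfderiv (IRn n) (IRT n) j y v

/-- the derivative of a real function at `y`, applied to `v` -/
def dfun (f : L → ℝ) (y : L) (v : TangentSpace (IRn n) y) : ℝ := mfderiv (IRn n) 𝓘(ℝ, ℝ) f y v

/-- an exact Lagrangian embedding `j : L → T*N` of a closed manifold of the same dimension as `N`: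
an injective smooth immersion (an embedding when `L` is compact) such that `j*λ = df` for a smooth
function `f` -/
structure ExactLag (j : L → TStar n N) : Prop where
  smooth : ContMDiff (IRn n) (IRT n) ∞ j
  inj : Function.Injective j
  immersion : ∀ y v, dmap j y v = 0 → v = 0
  exact : ∃ f : L → ℝ, ContMDiff (IRn n) 𝓘(ℝ, ℝ) ∞ f ∧
    ∀ y v, dfun (n := n) f y v = liouv (j y) (dmap j y v)

/-- `Φ` is a diffeomorphism of `T*N` that covers the homeomorphism `g` of `N` and preserves the
Liouville form (such `Φ` are the cotangent lifts of diffeomorphisms of `N`) -/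
structure LiftOf (g : N ≃ₜ N) (Φ : Diffeomorph (IRT n) (IRT n) (TStar n N) (TStar n N) ∞) :
    Prop where
  cover : ∀ z, (Φ z).pt = g z.pt
  pres : ∀ z ξ, liouv (Φ z) (dself Φ z ξ) = liouv z ξ

end

end Pool.Agent.H16.EL
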