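import Pool.Agent.H16.EL.Coords

/-!
# Nondegenerate points of the projection of a Lagrangian
-/

open scoped Manifold ContDiff Topology InnerProductSpace
open Bundle Set Filter

set_option linter.unusedSectionVars false

noncomputable section

namespace Pool.Agent.H16.EL

theorem two_le_infty : (2 : WithTop ℕ∞) ≤ ∞ := by
  have : ((2 : ℕ∞) : WithTop ℕ∞) ≤ ((⊤ : ℕ∞) : WithTop ℕ∞) := WithTop.coe_le_coe.2 le_top
  exact this

theorem symm_of_primitive {V : Type*} [NormedAddCommGroup V] [InnerProductSpace ℝ V]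
    [FiniteDimensional ℝ V] {B Q : V → V} {F : V → ℝ} {w : V} (hB : ContDiffAt ℝ 2 B w)
    (hQ : ContDiffAt ℝ 2 Q w) (hF : ContDiffAt ℝ 2 F w)
    (h : ∀ᶠ w' in 𝓝 w, ∀ v, fderiv ℝ F w' v = ⟪Q w', fderiv ℝ B w' v⟫_ℝ) (u v : V) :
    ⟪fderiv ℝ Q w u, fderiv ℝ B w v⟫_ℝ = ⟪fderiv ℝ Q w v, fderiv ℝ B w u⟫_ℝ := by
  have hB2 : HasFDerivAt (fderiv ℝ B) (fderiv ℝ (fderiv ℝ B) w) w :=
    ((hB.fderiv_right (m := 1) (by norm_num)).differentiableAt (by norm_num)).hasFDerivAt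
  have hF2 : HasFDerivAt (fderiv ℝ F) (fderiv ℝ (fderiv ℝ F) w) w :=
    ((hF.fderiv_right (m := 1) (by norm_num)).differentiableAt (by norm_num)).hasFDerivAt
  have hQ1 : HasFDerivAt Q (fderiv ℝ Q w) w := (hQ.differentiableAt (by norm_num)).hasFDerivAt
  have hBs : ∀ u v, fderiv ℝ (fderiv ℝ B) w u v = fderiv ℝ (fderiv ℝ B) w v u := by
    have h : IsSymmSndFDerivAt ℝ B w := hB.isSymmSndFDerivAt (by simp)
    exact fun u v => h u v
  have hFs : ∀ u v, fderiv ℝ (fderiv ℝ F) w u v = fderiv ℝ (fderiv ℝ F) w v u := by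
    have h : IsSymmSndFDerivAt ℝ F w := hF.isSymmSndFDerivAt (by simp)
    exact fun u v => h u v
  have key : ∀ u v, fderiv ℝ (fderiv ℝ F) w u v =
      ⟪Q w, fderiv ℝ (fderiv ℝ B) w u v⟫_ℝ + ⟪fderiv ℝ Q w u, fderiv ℝ B w v⟫_ℝ := by
    intro u v
    have h1 : HasFDerivAt (fun w' => fderiv ℝ B w' v)
        ((ContinuousLinearMap.apply ℝ V v).comp (fderiv ℝ (fderiv ℝ B) w)) w :=
      (ContinuousLinearMap.apply ℝ V v).hasFDerivAt.comp w hB2
    have h2 : HasFDerivAt (fun w' => fderiv ℝ F w' v)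
        ((ContinuousLinearMap.apply ℝ ℝ v).comp (fderiv ℝ (fderiv ℝ F) w)) w :=
      (ContinuousLinearMap.apply ℝ ℝ v).hasFDerivAt.comp w hF2
    have h3 := hQ1.inner ℝ h1
    have h4 : (fun w' => fderiv ℝ F w' v) =ᶠ[𝓝 w] fun w' => ⟪Q w', fderiv ℝ B w' v⟫_ℝ := by
      filter_upwards [h] with w' hw'
      exact hw' v
    have h5 := h2.unique (h3.congr_of_eventuallyEq h4)
    have h6 := congrArg (fun A : V →L[ℝ] ℝ => A u) h5
    simpa [fderivInnerCLM_apply] using h6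
  have k1 := key u v
  have k2 := key v u
  rw [hFs u v] at k1
  rw [hBs u v] at k1
  linarith

variable {n : ℕ} {N : Type*} [TopologicalSpace N] [ChartedSpace (E n) N] [IsManifold (𝓡 n) ∞ N]
variable {L : Type*} [TopologicalSpace L] [ChartedSpace (E n) L] [IsManifold (𝓡 n) ∞ L]

section
variable {j : L → CT n N} {y₁ : L} {x₁ : N} {w : E n}

theorem mem_Dom {y : L} (hy : y ∈ (chartAt (E n) y₁).source)
    (hx : (j y).proj ∈ (chartAt (E n) x₁).source) : extChartAt (𝓡 n) y₁ y ∈ Dom j y₁ x₁ := by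
  have hy' : y ∈ (extChartAt (𝓡 n) y₁).source := by rw [extChartAt_source]; exact hy
  refine ⟨(extChartAt (𝓡 n) y₁).map_source hy', ?_⟩
  rw [(extChartAt (𝓡 n) y₁).left_inv hy']
  exact hx

theorem symm_form (hj : ExactLagrangian j) (hw : w ∈ Dom j y₁ x₁) (u v : E n) :
    ⟪fderiv ℝ (Qc j y₁ x₁) w u, fderiv ℝ (Bc j y₁ x₁) w v⟫_ℝ =
      ⟪fderiv ℝ (Qc j y₁ x₁) w v, fderiv ℝ (Bc j y₁ x₁) w u⟫_ℝ := by
  obtain ⟨f, hf, hfj⟩ := hj.exact
  have hF : ContDiffAt ℝ 2 (fun w => f ((extChartAt (𝓡 n) y₁).symm w)) w := by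
    have h1 : ContMDiffAt 𝓘(ℝ, E n) 𝓘(ℝ, ℝ) ∞ (fun w => f ((extChartAt (𝓡 n) y₁).symm w)) w :=
      hf.contMDiffAt.comp w (symm_contMDiffAt hw.1)
    exact (contMDiffAt_iff_contDiffAt.1 h1).of_le two_le_infty
  refine symm_of_primitive ((Bc_contDiffAt hj.smooth hw).of_le two_le_infty)
    ((Qc_contDiffAt hj.smooth hw).of_le two_le_infty) hF ?_ u v
  filter_upwards [(isOpen_Dom hj.smooth y₁ x₁).mem_nhds hw] with w' hw' v
  exact fderiv_Fc hj.smooth hf hfj hw' v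

theorem symm_tendsto (y₁ : L) : Tendsto (extChartAt (𝓡 n) y₁).symm
    (𝓝 (extChartAt (𝓡 n) y₁ y₁)) (𝓝 y₁) := by
  have h := continuousAt_extChartAt_symm (I := 𝓡 n) y₁
  have h2 := h.tendsto
  rwa [extChartAt_to_inv] at h2

theorem isOpen_reg (hj : ExactLagrangian j) : IsOpen {y | Reg j y} := by
  rw [isOpen_iff_mem_nhds]
  intro y hy
  have hw : extChartAt (𝓡 n) y y ∈ Dom j y (j y).proj :=
    mem_Dom (mem_chart_source _ _) (mem_chart_source _ _)
  have h1 := (Bc_contDiffAt hj.smooth hw).fderiv_right (m := 0) (by simp)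
  have h2 : ContinuousAt (fderiv ℝ (Bc j y (j y).proj)) (extChartAt (𝓡 n) y y) :=
    h1.continuousAt
  have hinj : fderiv ℝ (Bc j y (j y).proj) (extChartAt (𝓡 n) y y) ∈
      {A : E n →L[ℝ] E n | Function.Injective A} := by
    show Function.Injective _
    rw [injective_iff_map_eq_zero]
    refine (reg_iff hj.smooth hw).2 ?_
    rw [extChartAt_to_inv]; exact hy
  have h3 := h2.preimage_mem_nhds (ContinuousLinearMap.isOpen_injective.mem_nhds hinj)
  have h4 := (isOpen_Dom hj.smooth y (j y).proj).mem_nhds hw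
  have h5 : ContinuousAt (extChartAt (𝓡 n) y) y := continuousAt_extChartAt y
  filter_upwards [h5.preimage_mem_nhds h3, h5.preimage_mem_nhds h4,
    extChartAt_source_mem_nhds (I := 𝓡 n) y] with z z1 z2 z3
  have z4 := (reg_iff hj.smooth z2).1 ((injective_iff_map_eq_zero _).1 z1)
  rwa [(extChartAt (𝓡 n) y).left_inv z3] at z4

/-- at nondegenerate points the projection is open -/
theorem reg_image_nhds (hj : ExactLagrangian j) {y : L} (hy : Reg j y) {U : Set L} (hU : U ∈ 𝓝 y) :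
    (fun y => (j y).proj) '' U ∈ 𝓝 (j y).proj := by
  have hw : extChartAt (𝓡 n) y y ∈ Dom j y (j y).proj :=
    mem_Dom (mem_chart_source _ _) (mem_chart_source _ _)
  have h1 : HasStrictFDerivAt (Bc j y (j y).proj)
      (fderiv ℝ (Bc j y (j y).proj) (extChartAt (𝓡 n) y y)) (extChartAt (𝓡 n) y y) :=
    (Bc_contDiffAt hj.smooth hw).hasStrictFDerivAt (by simp)
  have hinj : Function.Injective (fderiv ℝ (Bc j y (j y).proj) (extChartAt (𝓡 n) y y)) := by
    rw [injective_iff_map_eq_zero]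
    refine (reg_iff hj.smooth hw).2 ?_
    rw [extChartAt_to_inv]; exact hy
  have hsurj : LinearMap.range (fderiv ℝ (Bc j y (j y).proj) (extChartAt (𝓡 n) y y)).toLinearMap
      = ⊤ := LinearMap.range_eq_top.2 (LinearMap.injective_iff_surjective.1 hinj)
  have h2 := h1.map_nhds_eq_of_surj hsurj
  have hB0 : Bc j y (j y).proj (extChartAt (𝓡 n) y y) =
      extChartAt (𝓡 n) (j y).proj (j y).proj := by
    unfold Bc; rw [extChartAt_to_inv]
  rw [hB0] at h2
  -- a neighbourhood in the chart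
  have h3 : (extChartAt (𝓡 n) y).symm ⁻¹' U ∩ Dom j y (j y).proj ∈
      𝓝 (extChartAt (𝓡 n) y y) :=
    inter_mem ((symm_tendsto y) hU) ((isOpen_Dom hj.smooth y (j y).proj).mem_nhds hw)
  have h4 : Bc j y (j y).proj '' ((extChartAt (𝓡 n) y).symm ⁻¹' U ∩ Dom j y (j y).proj) ∈
      𝓝 (extChartAt (𝓡 n) (j y).proj (j y).proj) := by
    rw [← h2]; exact image_mem_map h3
  have h5 : ContinuousAt (extChartAt (𝓡 n) (j y).proj) (j y).proj := continuousAt_extChartAt _
  filter_upwards [h5.preimage_mem_nhds h4, extChartAt_source_mem_nhds (I := 𝓡 n) (j y).proj]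
    with x z1 z2
  obtain ⟨w', ⟨hw'U, hw'D⟩, hw'x⟩ := z1
  refine ⟨(extChartAt (𝓡 n) y).symm w', hw'U, ?_⟩
  have z3 : (j ((extChartAt (𝓡 n) y).symm w')).proj ∈ (extChartAt (𝓡 n) (j y).proj).source := by
    rw [extChartAt_source]; exact hw'D.2
  exact (extChartAt (𝓡 n) (j y).proj).injOn z3 z2 hw'x

/-- Sard: the caustic has empty interior -/
theorem caustic_interior [CompactSpace L] (hj : ExactLagrangian j) :
    interior ((fun y => (j y).proj) '' {y | ¬ Reg j y}) = ∅ := by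
  by_contra hne
  obtain ⟨x₁, hx₁⟩ := nonempty_iff_ne_empty.2 hne
  set W := interior ((fun y => (j y).proj) '' {y | ¬ Reg j y}) with hW
  have hWo : IsOpen W := isOpen_interior
  obtain ⟨t, ht⟩ := isCompact_univ.elim_finite_subcover (fun y : L => (chartAt (E n) y).source)
    (fun y => (chartAt (E n) y).open_source) (fun y _ => mem_iUnion.2 ⟨y, mem_chart_source _ y⟩)
  set S : Set (E n) := (extChartAt (𝓡 n) x₁).target ∩ (extChartAt (𝓡 n) x₁).symm ⁻¹' W with hS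
  have hSo : IsOpen S :=
    (continuousOn_extChartAt_symm x₁).isOpen_inter_preimage (isOpen_extChartAt_target x₁) hWo
  have hSn : S.Nonempty := by
    refine ⟨extChartAt (𝓡 n) x₁ x₁, mem_extChartAt_target x₁, ?_⟩
    rw [mem_preimage, extChartAt_to_inv]; exact hx₁
  have hpos : 0 < MeasureTheory.volume S := hSo.measure_pos MeasureTheory.volume hSn
  have hsub : S ⊆ ⋃ y₁ ∈ t, Bc j y₁ x₁ ''
      {w | w ∈ Dom j y₁ x₁ ∧ ¬ Function.Injective (fderiv ℝ (Bc j y₁ x₁) w)} := by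
    rintro u ⟨hu1, hu2⟩
    obtain ⟨y, hy, hyx⟩ := interior_subset hu2
    simp only at hyx
    have h1 := ht (mem_univ y)
    simp only [mem_iUnion] at h1
    obtain ⟨y₁, hy₁, hyy⟩ := h1
    have hys : y ∈ (extChartAt (𝓡 n) y₁).source := by rw [extChartAt_source]; exact hyy
    have hxs : (j y).proj ∈ (chartAt (E n) x₁).source := by
      rw [hyx, ← extChartAt_source (𝓡 n)]
      exact (extChartAt (𝓡 n) x₁).map_target hu1
    have hD : extChartAt (𝓡 n) y₁ y ∈ Dom j y₁ x₁ := mem_Dom hyy hxs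
    simp only [mem_iUnion]
    refine ⟨y₁, hy₁, extChartAt (𝓡 n) y₁ y, ⟨hD, fun hinj => hy ?_⟩, ?_⟩
    · have := (reg_iff hj.smooth hD).1 ((injective_iff_map_eq_zero _).1 hinj)
      rwa [(extChartAt (𝓡 n) y₁).left_inv hys] at this
    · unfold Bc
      rw [(extChartAt (𝓡 n) y₁).left_inv hys, hyx]
      exact (extChartAt (𝓡 n) x₁).right_inv hu1
  have hnull : MeasureTheory.volume (⋃ y₁ ∈ t, Bc j y₁ x₁ ''
      {w | w ∈ Dom j y₁ x₁ ∧ ¬ Function.Injective (fderiv ℝ (Bc j y₁ x₁) w)}) = 0 := by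
    refine (MeasureTheory.measure_biUnion_null_iff (I := (t : Set L)) t.countable_toSet).2 ?_
    intro y₁ _
    refine MeasureTheory.addHaar_image_eq_zero_of_det_fderivWithin_eq_zero MeasureTheory.volume
      (f' := fderiv ℝ (Bc j y₁ x₁)) ?_ ?_
    · rintro w ⟨hw, -⟩
      exact ((Bc_contDiffAt hj.smooth hw).differentiableAt (by simp)).hasFDerivAt.hasFDerivWithinAt
    · rintro w ⟨hw, hw2⟩
      by_contra hdet
      apply hw2
      have h3 : IsUnit (LinearMap.det (fderiv ℝ (Bc j y₁ x₁) w : E n →ₗ[ℝ] E n)) :=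
        isUnit_iff_ne_zero.2 hdet
      have h4 := LinearMap.isUnit_iff_isUnit_det (fderiv ℝ (Bc j y₁ x₁) w : E n →ₗ[ℝ] E n)
      have h5 : LinearMap.ker (fderiv ℝ (Bc j y₁ x₁) w : E n →ₗ[ℝ] E n) = ⊥ :=
        (LinearMap.isUnit_iff_ker_eq_bot _).1 (h4.2 h3)
      exact LinearMap.ker_eq_bot.1 h5
  exact absurd (MeasureTheory.measure_mono_null hsub hnull) hpos.ne'

end

end Pool.Agent.H16.EL
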