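import Pool.Agent.H16.EL.Exist

/-!
# Symmetries of an exact Lagrangian embedding
-/

open scoped Manifold ContDiff Topology InnerProductSpace
open Bundle Set Filter

set_option linter.unusedSectionVars false

noncomputable section

namespace Pool.Agent.H16.EL

/-- a map with injective strict derivative has a local left inverse -/
theorem exists_left_inv {V W : Type*} [NormedAddCommGroup V] [NormedSpace ℝ V]
    [FiniteDimensional ℝ V] [NormedAddCommGroup W] [NormedSpace ℝ W] [FiniteDimensional ℝ W]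
    {K : V → W} {D : V →L[ℝ] W} {a : V} (hK : HasStrictFDerivAt K D a)
    (hD : Function.Injective D) :
    ∃ (S : W → V) (S' : W →L[ℝ] V), HasStrictFDerivAt S S' (K a) ∧ ∀ᶠ w in 𝓝 a, S (K w) = w := by
  obtain ⟨Λ, hΛ⟩ := LinearMap.exists_leftInverse_of_injective (D : V →ₗ[ℝ] W)
    (LinearMap.ker_eq_bot.2 hD)
  set Λc : W →L[ℝ] V := LinearMap.toContinuousLinearMap Λ with hΛc
  have h1 : HasStrictFDerivAt (fun w => Λc (K w)) (Λc.comp D) a :=
    Λc.hasStrictFDerivAt.comp a hK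
  have h2 : Λc.comp D = ((ContinuousLinearEquiv.refl ℝ V : V ≃L[ℝ] V) : V →L[ℝ] V) := by
    ext v
    have : Λ (D v) = v := congrArg (fun A : V →ₗ[ℝ] V => A v) hΛ
    exact this
  rw [h2] at h1
  have h3 := h1.to_localInverse
  have h4 : HasStrictFDerivAt (fun z => h1.localInverse _ _ _ (Λc z))
      ((((ContinuousLinearEquiv.refl ℝ V).symm : V ≃L[ℝ] V) : V →L[ℝ] V).comp Λc) (K a) :=
    h3.comp (K a) (Λc.hasStrictFDerivAt)
  exact ⟨_, _, h4, h1.eventually_left_inverse⟩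

variable {n : ℕ} {N : Type*} [TopologicalSpace N] [ChartedSpace (E n) N] [IsManifold (𝓡 n) ∞ N]
variable {L : Type*} [TopologicalSpace L] [ChartedSpace (E n) L] [IsManifold (𝓡 n) ∞ L]

/-- a continuous map into `L` whose composition with `j` is smooth is differentiable -/
theorem mdiff_of_comp {M : Type*} [TopologicalSpace M] [ChartedSpace (E n) M]
    [IsManifold (𝓡 n) ∞ M] {j : L → CT n N} (hj : ExactLagrangian j) {ρ : M → L} {k : M → CT n N}
    {y₀ : M} (hρ : ContinuousAt ρ y₀) (hk : ContMDiffAt (𝓡 n) (ICT n) ∞ k y₀)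
    (hjρ : ∀ y, j (ρ y) = k y) : MDifferentiableAt (𝓡 n) (𝓡 n) ρ y₀ := by
  set y₁ := ρ y₀ with hy₁
  set x₁ := (j y₁).proj with hx₁
  have hw : extChartAt (𝓡 n) y₁ y₁ ∈ Dom j y₁ x₁ :=
    mem_Dom (mem_chart_source _ _) (mem_chart_source _ _)
  set w₁ := extChartAt (𝓡 n) y₁ y₁ with hw₁
  have hK : HasStrictFDerivAt (fun w => (Bc j y₁ x₁ w, Qc j y₁ x₁ w))
      ((fderiv ℝ (Bc j y₁ x₁) w₁).prod (fderiv ℝ (Qc j y₁ x₁) w₁)) w₁ :=
    ((Bc_contDiffAt hj.smooth hw).hasStrictFDerivAt (by simp)).prodMk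
      ((Qc_contDiffAt hj.smooth hw).hasStrictFDerivAt (by simp))
  have hinj : Function.Injective
      ((fderiv ℝ (Bc j y₁ x₁) w₁).prod (fderiv ℝ (Qc j y₁ x₁) w₁)) := by
    rw [injective_iff_map_eq_zero]
    intro v hv
    have h1 := congrArg Prod.fst hv
    have h2 := congrArg Prod.snd hv
    exact immersion_coords hj.smooth hj.immersion hw v h1 h2
  obtain ⟨S, S', hS, hSK⟩ := exists_left_inv hK hinj
  -- coordinates of `k`
  have hkx : (k y₀).proj = x₁ := by rw [← hjρ]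
  have hksrc : (k y₀).proj ∈ (chartAt (E n) x₁).source := by
    rw [hkx]; exact mem_chart_source _ _
  have c1 : ContMDiffAt (𝓡 n) 𝓘(ℝ, E n) ∞ (fun y => extChartAt (𝓡 n) x₁ (k y).proj) y₀ := by
    have h1 : ContMDiffAt (𝓡 n) (𝓡 n) ∞ (fun y => (k y).proj) y₀ :=
      (contMDiffAt_proj _).comp y₀ hk
    exact (contMDiffAt_extChartAt' hksrc).comp y₀ h1
  have c2 : ContMDiffAt (𝓡 n) 𝓘(ℝ, E n) ∞
      (fun y => (InnerProductSpace.toDual ℝ (E n)).symm (triv x₁ (k y)).2) y₀ := by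
    have h2 := ((triv x₁).contMDiffAt_iff (IM := 𝓡 n) (IB := 𝓡 n) (n := ∞) (f := k)
      (x₀ := y₀) (mem_triv_source hksrc)).1 hk
    exact ((InnerProductSpace.toDual ℝ (E n)).symm.contDiff.contMDiff.contMDiffAt).comp y₀ h2.2
  have c3 : MDifferentiableAt (𝓡 n) 𝓘(ℝ, E n × E n) (fun y => (extChartAt (𝓡 n) x₁ (k y).proj,
      (InnerProductSpace.toDual ℝ (E n)).symm (triv x₁ (k y)).2)) y₀ :=
    (c1.prodMk_space c2).mdifferentiableAt (by simp)
  have hval : (extChartAt (𝓡 n) x₁ (k y₀).proj,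
      (InnerProductSpace.toDual ℝ (E n)).symm (triv x₁ (k y₀)).2) =
      (Bc j y₁ x₁ w₁, Qc j y₁ x₁ w₁) := by
    unfold Bc Qc Pc
    rw [hw₁, extChartAt_to_inv, ← hjρ]
  have c4 : MDifferentiableAt 𝓘(ℝ, E n × E n) 𝓘(ℝ, E n) S (extChartAt (𝓡 n) x₁ (k y₀).proj,
      (InnerProductSpace.toDual ℝ (E n)).symm (triv x₁ (k y₀)).2) := by
    rw [hval]
    exact hS.hasFDerivAt.differentiableAt.mdifferentiableAt
  have c5 : MDifferentiableAt (𝓡 n) 𝓘(ℝ, E n) (fun y => S (extChartAt (𝓡 n) x₁ (k y).proj,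
      (InnerProductSpace.toDual ℝ (E n)).symm (triv x₁ (k y)).2)) y₀ := c4.comp y₀ c3
  have c6 : MDifferentiableAt 𝓘(ℝ, E n) (𝓡 n) (extChartAt (𝓡 n) y₁).symm
      (S (extChartAt (𝓡 n) x₁ (k y₀).proj,
      (InnerProductSpace.toDual ℝ (E n)).symm (triv x₁ (k y₀)).2)) := by
    rw [hval, hSK.self_of_nhds]
    exact (symm_contMDiffAt hw.1).mdifferentiableAt (by simp)
  have c7 : MDifferentiableAt (𝓡 n) (𝓡 n) (fun y => (extChartAt (𝓡 n) y₁).symm
      (S (extChartAt (𝓡 n) x₁ (k y).proj,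
      (InnerProductSpace.toDual ℝ (E n)).symm (triv x₁ (k y)).2))) y₀ := c6.comp y₀ c5
  refine c7.congr_of_eventuallyEq ?_
  have d1 : ContinuousAt (fun y => extChartAt (𝓡 n) y₁ (ρ y)) y₀ :=
    (continuousAt_extChartAt y₁).comp_of_eq hρ rfl
  have d2 : ∀ᶠ y in 𝓝 y₀, S (Bc j y₁ x₁ (extChartAt (𝓡 n) y₁ (ρ y)),
      Qc j y₁ x₁ (extChartAt (𝓡 n) y₁ (ρ y))) = extChartAt (𝓡 n) y₁ (ρ y) :=
    d1.eventually hSK
  have d3 : ∀ᶠ y in 𝓝 y₀, ρ y ∈ (extChartAt (𝓡 n) y₁).source :=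
    hρ.eventually (extChartAt_source_mem_nhds (I := 𝓡 n) y₁)
  filter_upwards [d2, d3] with y z2 z3
  have e1 : (extChartAt (𝓡 n) y₁).symm (extChartAt (𝓡 n) y₁ (ρ y)) = ρ y :=
    (extChartAt (𝓡 n) y₁).left_inv z3
  unfold Bc Qc Pc at z2
  rw [e1, hjρ] at z2
  rw [z2, e1]

/-- a function with zero derivative on a connected manifold is constant -/
theorem const_of_mfderiv_zero [PreconnectedSpace L] {h : L → ℝ}
    (hd : ∀ y, MDifferentiableAt (𝓡 n) 𝓘(ℝ, ℝ) h y)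
    (h0 : ∀ (y : L) (v : TangentSpace (𝓡 n) y), mfderiv (𝓡 n) 𝓘(ℝ, ℝ) h y v = 0) (y y' : L) :
    h y = h y' := by
  have hlc : IsLocallyConstant h := by
    rw [IsLocallyConstant.iff_eventually_eq]
    intro y
    set w₀ := extChartAt (𝓡 n) y y with hw₀
    obtain ⟨r, hr, hball⟩ := Metric.nhds_basis_ball.mem_iff.1
      ((isOpen_extChartAt_target (I := 𝓡 n) y).mem_nhds (mem_extChartAt_target y))
    have hder : ∀ w ∈ Metric.ball w₀ r,
        HasFDerivAt (fun w => h ((extChartAt (𝓡 n) y).symm w)) (0 : E n →L[ℝ] ℝ) w := by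
      intro w hw
      have h1 := (symm_contMDiffAt (hball hw)).mdifferentiableAt (by simp)
      have h2 := hd ((extChartAt (𝓡 n) y).symm w)
      have h3 : MDifferentiableAt 𝓘(ℝ, E n) 𝓘(ℝ, ℝ)
          (fun w => h ((extChartAt (𝓡 n) y).symm w)) w := h2.comp w h1
      have h4 : DifferentiableAt ℝ (fun w => h ((extChartAt (𝓡 n) y).symm w)) w :=
        mdifferentiableAt_iff_differentiableAt.1 h3
      have h5 : fderiv ℝ (fun w => h ((extChartAt (𝓡 n) y).symm w)) w = 0 := by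
        ext v
        rw [← mfderiv_eq_fderiv]
        have e1 : mfderiv 𝓘(ℝ, E n) 𝓘(ℝ, ℝ) (fun w => h ((extChartAt (𝓡 n) y).symm w)) w =
          (mfderiv (𝓡 n) 𝓘(ℝ, ℝ) h ((extChartAt (𝓡 n) y).symm w)).comp
            (mfderiv 𝓘(ℝ, E n) (𝓡 n) (extChartAt (𝓡 n) y).symm w) := mfderiv_comp w h2 h1
        rw [e1]
        exact h0 _ _
      rw [← h5]
      exact h4.hasFDerivAt
    have hcst : ∀ w ∈ Metric.ball w₀ r, h ((extChartAt (𝓡 n) y).symm w) = h y := by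
      intro w hw
      have h6 := (convex_ball w₀ r).is_const_of_fderivWithin_eq_zero (𝕜 := ℝ)
        (f := fun w => h ((extChartAt (𝓡 n) y).symm w))
        (fun w hw => (hder w hw).differentiableAt.differentiableWithinAt)
        (fun w hw => by
          rw [fderivWithin_of_isOpen Metric.isOpen_ball hw]
          exact (hder w hw).fderiv) hw (Metric.mem_ball_self hr)
      rw [h6, hw₀, extChartAt_to_inv]
    have h7 : ContinuousAt (extChartAt (𝓡 n) y) y := continuousAt_extChartAt y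
    filter_upwards [h7.preimage_mem_nhds (Metric.ball_mem_nhds w₀ hr),
      extChartAt_source_mem_nhds (I := 𝓡 n) y] with z z1 z2
    have h8 := hcst _ z1
    rwa [(extChartAt (𝓡 n) y).left_inv z2] at h8
  exact hlc.apply_eq_of_isPreconnected isPreconnected_univ (mem_univ y) (mem_univ y')

/-- invariance of the primitive -/
theorem primitive_invariant [CompactSpace L] [ConnectedSpace L] {j : L → CT n N}
    (hj : ExactLagrangian j) {f : L → ℝ} (hf : ContMDiff (𝓡 n) 𝓘(ℝ, ℝ) ∞ f)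
    (hfj : ∀ (y : L) (v : TangentSpace (𝓡 n) y),
      mfderiv (𝓡 n) 𝓘(ℝ, ℝ) f y v = liouville (j y) (mfderiv (𝓡 n) (ICT n) j y v))
    {g : N ≃ₜ N} {Φ : Diffeomorph (ICT n) (ICT n) (CT n N) (CT n N) ∞} (hΦ : IsLift g Φ)
    {ρ : L → L} (hρ : Continuous ρ) (hjρ : ∀ y, j (ρ y) = Φ (j y)) (y : L) : f (ρ y) = f y := by
  have hk : ContMDiff (𝓡 n) (ICT n) ∞ (fun y => Φ (j y)) := Φ.contMDiff_toFun.comp hj.smooth
  have hρd : ∀ y, MDifferentiableAt (𝓡 n) (𝓡 n) ρ y := fun y =>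
    mdiff_of_comp hj hρ.continuousAt hk.contMDiffAt hjρ
  have hfd : ∀ y, MDifferentiableAt (𝓡 n) 𝓘(ℝ, ℝ) f y := fun y =>
    hf.contMDiffAt.mdifferentiableAt (by simp)
  have hjd : ∀ y, MDifferentiableAt (𝓡 n) (ICT n) j y := fun y =>
    hj.smooth.contMDiffAt.mdifferentiableAt (by simp)
  have hΦd : ∀ z, MDifferentiableAt (ICT n) (ICT n) Φ z := fun z =>
    Φ.contMDiff_toFun.contMDiffAt.mdifferentiableAt (by simp)
  have hder : ∀ (y : L) (v : TangentSpace (𝓡 n) y),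
      mfderiv (𝓡 n) 𝓘(ℝ, ℝ) (fun y => f (ρ y)) y v = mfderiv (𝓡 n) 𝓘(ℝ, ℝ) f y v := by
    intro y v
    have e1 : mfderiv (𝓡 n) 𝓘(ℝ, ℝ) (fun y => f (ρ y)) y =
        (mfderiv (𝓡 n) 𝓘(ℝ, ℝ) f (ρ y)).comp (mfderiv (𝓡 n) (𝓡 n) ρ y) :=
      mfderiv_comp y (hfd _) (hρd y)
    have e2 : mfderiv (𝓡 n) (ICT n) (fun y => j (ρ y)) y =
        (mfderiv (𝓡 n) (ICT n) j (ρ y)).comp (mfderiv (𝓡 n) (𝓡 n) ρ y) :=
      mfderiv_comp y (hjd _) (hρd y)
    have e3 : mfderiv (𝓡 n) (ICT n) (fun y => Φ (j y)) y =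
        (mfderiv (ICT n) (ICT n) Φ (j y)).comp (mfderiv (𝓡 n) (ICT n) j y) :=
      mfderiv_comp y (hΦd _) (hjd y)
    have e4 : (fun y => j (ρ y)) = fun y => Φ (j y) := funext hjρ
    have e5 : mfderiv (𝓡 n) 𝓘(ℝ, ℝ) f (ρ y) (mfderiv (𝓡 n) (𝓡 n) ρ y v) =
        liouville (j (ρ y)) (mfderiv (𝓡 n) (ICT n) (fun y => j (ρ y)) y v) := by
      rw [hfj, e2]; rfl
    have e6 : ∀ a b : L → CT n N, a = b → liouville (a y) (mfderiv (𝓡 n) (ICT n) a y v) =
        liouville (b y) (mfderiv (𝓡 n) (ICT n) b y v) := by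
      rintro a b rfl; rfl
    have e7 := e6 _ _ e4
    rw [e1]
    show mfderiv (𝓡 n) 𝓘(ℝ, ℝ) f (ρ y) (mfderiv (𝓡 n) (𝓡 n) ρ y v) = _
    rw [e5, e7, e3, hfj y v]
    exact hΦ.pres (j y) (mfderiv (𝓡 n) (ICT n) j y v)
  have hconst : ∀ y y', f (ρ y) - f y = f (ρ y') - f y' := by
    refine const_of_mfderiv_zero (n := n) (L := L) (h := fun y => f (ρ y) - f y) ?_ ?_
    · intro y
      exact ((hfd _).comp y (hρd y)).sub (hfd y)
    · intro y v
      have h1 : MDifferentiableAt (𝓡 n) 𝓘(ℝ, ℝ) (fun y => f (ρ y)) y := (hfd _).comp y (hρd y)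
      let A : TangentSpace (𝓡 n) y →L[ℝ] ℝ := mfderiv (𝓡 n) 𝓘(ℝ, ℝ) (fun y => f (ρ y)) y
      let C : TangentSpace (𝓡 n) y →L[ℝ] ℝ := mfderiv (𝓡 n) 𝓘(ℝ, ℝ) f y
      have h2 : HasMFDerivAt (𝓡 n) 𝓘(ℝ, ℝ) (fun y => f (ρ y) - f y) y (A - C) :=
        HasMFDerivAt.sub h1.hasMFDerivAt (hfd y).hasMFDerivAt
      rw [h2.mfderiv]
      have h3 : A v = C v := hder y v
      show A v - C v = 0
      rw [h3, sub_self]
  have hfc : Continuous f := hf.continuous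
  obtain ⟨ymax, -, hmax⟩ := isCompact_univ.exists_isMaxOn (univ_nonempty (α := L)) hfc.continuousOn
  obtain ⟨ymin, -, hmin⟩ := isCompact_univ.exists_isMinOn (univ_nonempty (α := L)) hfc.continuousOn
  have h1 : f (ρ ymax) ≤ f ymax := hmax (mem_univ _)
  have h2 : f ymin ≤ f (ρ ymin) := hmin (mem_univ _)
  have h3 := hconst y ymax
  have h4 := hconst y ymin
  linarith

end Pool.Agent.H16.EL
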